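import Pool.Agent.MP_6bef34_co.H92.Pure3
import Pool.Agent.MP_6bef34_co.H88.Defs

/-! The moves of the king between the landings of the contour walk.
Dart `(b, i)`: `a = b + d i`, `x = b + d (i + 1)`, `o = x + d i`, `z = x + d (i + 1)`. -/

namespace Pool.Agent.MP_6bef34_co.H88

open Finset
open Pool.Agent.MP_6bef34_co.H7 (Site d)

variable {Lo : Pt → Finset Pt → Prop} {N : ℤ} {p c : Nd} {nw : Multiset Site} {b y u : Site}
  {i : ZMod 6}

/-! ### Static facts -/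

theorem Nd.Blk.three (hp : p.Sound) (h : p.Blk y) : 3 ≤ p.cnt y := H92.blk_three hp h

theorem Nd.nB_le_cnt (hp : p.Sound) (y : Site) : p.nB y ≤ p.cnt y := H92.nB_le hp y

theorem Nd.h1_of_cnt (hp : p.Sound) (h : p.cnt y ≤ 1) : p.H1 y := H92.h1_of_le hp h

theorem near_iff {k x : Pt} : Near k x ↔ ¬ (x 0 = k 0 ∧ x 1 = k 1 ∧ x 2 = k 2 ∧ x 3 = k 3) ∧
    (-1 ≤ x 0 - k 0 ∧ x 0 - k 0 ≤ 1) ∧ (-1 ≤ x 1 - k 1 ∧ x 1 - k 1 ≤ 1) ∧
    (-1 ≤ x 2 - k 2 ∧ x 2 - k 2 ≤ 1) ∧ (-1 ≤ x 3 - k 3 ∧ x 3 - k 3 ≤ 1) := by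
  simp only [Near, Ne, pt_ext (r := x), ← abs_le]
  refine and_congr_right fun _ => ⟨fun h => ⟨h 0, h 1, h 2, h 3⟩, fun h j => ?_⟩
  rcases f4 j with rfl | rfl | rfl | rfl
  exacts [h.1, h.2.1, h.2.2.1, h.2.2.2]

theorem near_s {w e : ℤ} (he : Of e) : Near (sp b w) (sp (b + d i) (w + e)) := by
  unfold Of at he
  rcases geo6 i with a | a | a | a | a | a <;> simp [near_iff, a] <;> omega

theorem near_up {w e : ℤ} (he : Sg e) : Near (sp b w) (sp b (w + e)) := by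
  unfold Sg at he
  simp [near_iff]
  omega

theorem Nd.On.adj (h : p.On b) (i : ZMod 6) : p.Adj (b + d i) := fun e he => by
  rw [show p.k = sp b p.lv from h]
  exact near_s he

/-- a column next to three single lines leaves a gate -/
theorem pair_game (hp : p.Sound) (ha : p.COL (b + d i)) (hx : p.NC3 (b + d (i + 1)))
    (hb : p.nB b ≤ 2) (ho : p.cnt (b + d (i + 1) + d i) = 0) : p.Gate b i :=
  H92.pair_gate hp ha hx hb (add_right_comm b (d (i + 1)) (d i) ▸ ho)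

/-- six lines are needed to close the gates around a column -/
theorem column_game (hp : p.Sound) (hx : p.COL (b + d (i + 1)))
    (h : p.cnt (b + d i) + p.nB b + p.cnt (b + d (i + 1) + d i) ≤ 5) : p.Gate b i := by
  by_contra hg
  have := H92.column_six hp hx hg
  rw [add_right_comm b (d (i + 1)) (d i)] at h
  omega

/-! ### One reply -/

theorem Kid.tok (h : Kid p c nw) : c.T = nw + p.T := by
  obtain ⟨-, -, -, -, -, -, -, -, -, -, -, a⟩ := h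
  exact a

theorem Kid.cost (h : Kid p c nw) : p.cost c = nw.card := by
  simp [Nd.cost, h.tok]

theorem Nd.cost_add (p c c' : Nd) : p.cost c' = p.cost c + c.cost c' := by
  simp only [Nd.cost]
  omega

theorem Nd.Ext.after {c' : Nd} (h' : c.Ext Lo c') (h : p.Ext Lo c) : p.Ext Lo c' :=
  ⟨h'.1, h.2.trans h'.2⟩

/-- one move in interface form -/
theorem Gm.go (G : Gm Lo N) (hp : p.Ok Lo) {k' : Pt} (h1 : Near p.k k') (h2 : ¬ Att p.Q k') :
    ∃ c nw, Kid p c nw ∧ c.k = k' ∧ p.Ext Lo c ∧ p.cost c = nw.card ∧ nw.card ≤ 2 := by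
  obtain ⟨c, nw, a1, a2, a3⟩ := G.move p k' hp.1 h1 h2
  exact ⟨c, nw, a1, a2, ⟨⟨a3, a1.sound hp.2⟩, a1.tok ▸ le_add_self⟩, a1.cost, a1.card⟩

theorem near_t {w e : ℤ} (he : Of e) : Near (sp b w) (tp b i (w + e)) := by
  unfold Of at he
  rcases geo6 i with a | a | a | a | a | a <;> simp [near_iff, a] <;> omega

theorem near_T {w e : ℤ} (he : Of e) : Near (sp b w) (tp (b + d i) (i + 1) (w + e)) := by
  unfold Of at he
  rcases geo6 i with a | a | a | a | a | a <;> simp [near_iff, a] <;> omega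

theorem near_t_o {w e : ℤ} (he : Of e) :
    Near (tp b i w) (sp (b + d (i + 1) + d i) (w + e)) := by
  unfold Of at he
  rcases geo6 i with a | a | a | a | a | a <;> simp [near_iff, a] <;> omega

theorem near_T_o {w e : ℤ} (he : Of e) :
    Near (tp (b + d i) (i + 1) w) (sp (b + d (i + 1) + d i) (w + e)) := by
  unfold Of at he
  rcases geo6 i with a | a | a | a | a | a <;> simp [near_iff, a] <;> omega

theorem near_T_z {w e : ℤ} (he : Of e) :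
    Near (tp (b + d i) (i + 1) w) (sp (b + d (i + 1) + d (i + 1)) (w + e)) := by
  unfold Of at he
  rcases geo6 i with a | a | a | a | a | a <;> simp [near_iff, a] <;> omega

theorem near_t_tc {w e : ℤ} (he : Of e) :
    Near (tp b i w) (tp (b + d (i + 1)) i (w + e)) := by
  unfold Of at he
  rcases geo6 i with a | a | a | a | a | a <;> simp [near_iff, a] <;> omega

theorem near_tc_z {w e : ℤ} (he : Of e) :
    Near (tp (b + d (i + 1)) i w) (sp (b + d (i + 1) + d (i + 1)) (w + e)) := by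
  unfold Of at he
  rcases geo6 i with a | a | a | a | a | a <;> simp [near_iff, a] <;> omega

theorem near_t_a {w e : ℤ} (he : Of e) : Near (tp b i w) (sp (b + d i) (w + e)) := by
  unfold Of at he
  rcases geo6 i with a | a | a | a | a | a <;> simp [near_iff, a] <;> omega

theorem near_t_x {w e : ℤ} (he : Of e) : Near (tp b i w) (sp (b + d (i + 1)) (w + e)) := by
  unfold Of at he
  rcases geo6 i with a | a | a | a | a | a <;> simp [near_iff, a] <;> omega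

theorem Sg.of {s : ℤ} (h : Sg s) : Of s := h.elim (fun a => Or.inr (Or.inr a)) Or.inl

theorem of_zero : Of 0 := Or.inr (Or.inl rfl)

theorem lv_sp {w : ℤ} (h : c.k = sp y w) : c.lv = w := by rw [Nd.lv, h, sp3]

theorem lv_tp {w : ℤ} (h : c.k = tp y i w) : c.lv = w := by rw [Nd.lv, h, tp3]

theorem on_sp {w : ℤ} (h : c.k = sp y w) : c.On y := by rw [Nd.On, lv_sp h, h]

theorem Nd.On.near (h : p.On b) {k : Pt} (a : Near (sp b p.lv) k) : Near p.k k := by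
  rw [show p.k = sp b p.lv from h]
  exact a

theorem adj_tp {w : ℤ} (h : c.k = tp b i w) (a : ∀ e, Of e → Near (tp b i w) (sp y (w + e))) :
    c.Adj y := fun e he => by
  rw [lv_tp h, h]
  exact a e he

theorem free_of (h : ¬ p.Blk y) : ∃ e, Of e ∧ ¬ Att p.Q (sp y (p.lv + e)) := by
  by_contra a
  push Not at a
  exact h ⟨a (-1) (Or.inl rfl), by simpa using a 0 of_zero, a 1 (Or.inr (Or.inr rfl))⟩

theorem not_blk {e : ℤ} (he : Of e) (h : ¬ Att p.Q (sp y (p.lv + e))) : ¬ p.Blk y := fun a => by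
  rcases he with rfl | rfl | rfl
  · exact h a.1
  · exact h (by simpa using a.2.1)
  · exact h a.2.2

/-- the level of the king carries no line through his site -/
theorem heavy_h (h : Kid p c nw) (hk : c.On y) (hs : ¬ Att p.Q c.k) (h0 : nw ≠ 0)
    (h1 : nw.count y = 0) : c.nB y ≤ 2 := by
  rcases H92.heavy h hk (by rwa [← show c.k = sp y c.lv from hk]) with a | a | a
  · exact absurd a h0
  · omega
  · exact a

/-- the two outer landings do not both end with three single lines on the same site -/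
theorem n0 {c' : Nd} {nw' : Multiset Site} (hp : p.Sound) (h : Kid p c nw) (h' : Kid p c' nw')
    (h0 : nw ≠ 0) (h0' : nw' ≠ 0) (hl : c.lv = p.lv + 1) (hl' : c'.lv = p.lv - 1) :
    ¬ c.NC3 u ∨ ¬ c'.NC3 u :=
  not_and_or.1 fun a => H92.n_zero hp h h' h0 h0' (by omega) a.1 a.2

/-- the site behind a gate stays open -/
theorem pass_reply (hp : p.Sound) (h : Kid p c nw)
    (ho : p.cnt u = 0 ∨ (p.cnt u ≤ 1 ∧ ∃ e, Of e ∧ Line p.Q u (c.lv + e))) : ¬ c.Blk u := by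
  rcases ho with ho | ⟨ho, e, he, a⟩
  · exact H92.after_zero hp h ho
  intro hb
  obtain ⟨-, v, -, v1, v2, v3, a1, -⟩ := H92.after_one hp h ho hb
  unfold Of at he
  have a2 := H92.line_iff.1 a
  have a3 := H92.an2 p.Q u (v1 := v) (v2 := c.lv + e) (by omega)
  have a4 := H92.sound_le hp u
  omega

theorem retest_new (hp : p.Sound) (h : Kid p c nw) (hx : p.NC3 u) {s : ℤ} (hs : Sg s)
    (h0 : nw ≠ 0) (ha : Att c.Q (sp u (p.lv + 2 * s))) : 1 ≤ nw.count u :=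
  (H92.retest hp hx h hs ha).resolve_left h0

theorem cross {c' : Nd} {nw' : Multiset Site} (hp : p.Sound) (h : Kid p c nw) (h' : Kid c c' nw')
    (hx : p.NC3 u) {s : ℤ} (hs : Sg s) (hk : c'.k = sp u (p.lv + 2 * s))
    (hsafe : ¬ Att c.Q c'.k) : c'.F4 u (2 - p.cost c') := by
  have a1 := h.cost
  have a2 := h'.cost
  have a3 := h.card
  have a4 := h'.card
  have a5 := p.cost_add c c'
  have a6 := h.cnt u
  have a7 := h'.cnt u
  have a8 := hx.1.three hp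
  refine ⟨by omega, ?_⟩
  rcases H92.cross_core hp hx h h' hs hk with e | e | e | e | e
  · rw [e, Multiset.card_zero] at a1
    omega
  · rw [e, Multiset.card_zero] at a2
    omega
  · omega
  · omega
  · exact Or.inr (Or.inr ⟨by omega, e.2⟩)

theorem two_sides (hp : p.Sound) (h : ¬ p.Side y) : 2 ≤ p.cnt y := by
  by_contra hc
  have a := H92.sound_le hp y
  have n := H92.not_col_of_le (Q := p.Q) (s := y) (by omega)
  have a1 := H92.att_nc (not_not.1 fun e => h ⟨1, Or.inl rfl, e⟩) n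
  have a2 := H92.att_nc (not_not.1 fun e => h ⟨-1, Or.inr rfl, e⟩) n
  have := H92.an2 p.Q y (v1 := p.lv + 1) (v2 := p.lv + -1) (by omega)
  omega

theorem free_zero (hp : p.Sound) (h : p.cnt y = 0) (w : ℤ) : ¬ Att p.Q (sp y w) := by
  have a := H92.sound_le hp y
  have := H92.an1 p.Q y w
  exact H92.not_att_up (H92.not_col_of_le (by omega)) (by omega)

theorem f4_of_pos (hp : p.Sound) {g : ℤ} (h0 : 0 ≤ g) (h1 : 1 ≤ g + p.cnt y) : p.F4 y g := by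
  refine ⟨by omega, ?_⟩
  have a := Nd.nB_le_cnt hp y
  by_cases e : p.cnt y ≤ 1
  · exact Or.inr (Or.inr ⟨h1, Nd.h1_of_cnt hp e⟩)
  · omega

theorem g3_of_pos (hp : p.Sound) {g : ℤ} {k : ℕ} (hk : k ≤ 1) (h0 : 0 ≤ g)
    (h1 : 1 ≤ g + p.cnt y - k) : p.G3 y u k g := by
  have a := Nd.nB_le_cnt hp y
  by_cases e : 2 ≤ g + p.cnt y - k
  · exact Or.inl e
  · exact Or.inr (Or.inl ⟨h1, by omega⟩)

theorem pay_le (p : Nd) (x : Site) : 0 ≤ p.pay x ∧ p.pay x ≤ 1 := by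
  unfold Nd.pay
  split_ifs <;> omega

theorem pay_zero {x : Site} (h : 4 ≤ p.cnt x) : p.pay x = 0 := if_pos h

theorem Nd.F4.le {g g' : ℤ} (h : p.F4 y g) (e : g ≤ g') : p.F4 y g' := by
  obtain ⟨a, h | h | h⟩ := h
  · exact ⟨by omega, Or.inl (by omega)⟩
  · exact ⟨by omega, Or.inr (Or.inl ⟨by omega, h.2⟩)⟩
  · exact ⟨by omega, Or.inr (Or.inr ⟨by omega, h.2⟩)⟩

/-- a step to a free square above a site; the last line is the alternative for the ledger -/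
theorem Gm.land (G : Gm Lo N) (hp : p.Ok Lo) {w : ℤ} (h1 : Near p.k (sp y w))
    (h2 : ¬ Att p.Q (sp y w)) :
    ∃ c nw, Kid p c nw ∧ c.On y ∧ c.lv = w ∧ p.Ext Lo c ∧ 0 ≤ p.cost c ∧ p.cost c ≤ 2 ∧
      (nw = 0 → p.cost c = 0) ∧ p.cnt y ≤ c.cnt y ∧
      (p.cost c = 0 ∨ p.cnt y + 1 ≤ c.cnt y ∨ c.nB y ≤ 2) := by
  obtain ⟨c, nw, a1, a2, a3, a4, a5⟩ := G.go hp h1 h2
  have a6 := a1.cnt y
  have a7 : nw = 0 → p.cost c = 0 := fun e => by rw [a4, e]; rfl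
  refine ⟨c, nw, a1, on_sp a2, lv_sp a2, a3, by omega, by omega, a7, by omega, ?_⟩
  rcases H92.heavy a1 a2 h2 with e | e | e
  · exact Or.inl (a7 e)
  · omega
  · omega

/-- the crossing as a move -/
theorem Gm.cross (G : Gm Lo N) (hp : p.Ok Lo) (h : Kid p c nw) (he : p.Ext Lo c) (hx : p.NC3 u)
    {s : ℤ} (hs : Sg s) (h1 : Near c.k (sp u (p.lv + 2 * s)))
    (h2 : ¬ Att c.Q (sp u (p.lv + 2 * s))) :
    ∃ c', p.Ext Lo c' ∧ c.T ≤ c'.T ∧ c'.On u ∧ c'.F4 u (2 - p.cost c') := by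
  obtain ⟨c', nw', a1, a2, a3, -, -⟩ := G.go he.1 h1 h2
  exact ⟨c', a3.after he, a3.2, on_sp a2, H88.cross hp.2 h a1 hx hs a2 (a2 ▸ h2)⟩

/-- the choice of the level for the first two corners -/
theorem lc_choice {cp cm : Nd} {np nm : Multiset Site} (hp : p.Sound) (kp : Kid p cp np)
    (km : Kid p cm nm) (yp : np ≠ 0) (ym : nm ≠ 0) (lp : cp.lv = p.lv + 1) (lm : cm.lv = p.lv + -1)
    (y : Site) (i : ZMod 6) (tip : Prop) : cp.LC y i tip ∨ cm.LC y i tip ∨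
      ((np.count (y + d (i + 1)) = 2 ∨ nm.count (y + d (i + 1)) = 2) ∧
        ∀ c0 n0, Kid p c0 n0 → n0 ≠ 0 → c0.lv = p.lv → c0.LC y i tip) := by
  have e1 := n0 (u := y + d (i + 1)) hp kp km yp ym lp (by omega)
  have e2 := n0 (u := y + d (i + 2)) hp kp km yp ym lp (by omega)
  have ne : y + d (i + 2) ≠ y + d (i + 1) := by
    rw [show i + 2 = i + 1 + 1 by ring]
    exact (H92.nbr_ne y (i + 1)).symm
  by_cases t : tip
  swap
  · exact e2.elim (fun a => Or.inl ⟨fun _ => a, fun b => absurd b t⟩)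
      fun a => Or.inr (Or.inl ⟨fun _ => a, fun b => absurd b t⟩)
  simp only [Nd.LC, t, not_true, false_implies, true_and, true_implies]
  by_cases a1 : cp.NC3 (y + d (i + 1))
  · have a2 := e1.resolve_left (not_not.2 a1)
    by_cases a3 : cm.Blk (y + d (i + 1)) ∧ cm.NC3 (y + d (i + 2))
    · obtain ⟨k1, k2 | k2⟩ := H92.lc4_core (w := p.lv) hp (Or.inl rfl) kp km yp ym lp (by omega)
        ne a1 a3.1 a3.2
      · exact Or.inl (Or.inr k2)
      · exact Or.inr (Or.inr ⟨Or.inr k1, fun c0 n0 f1 f2 f3 =>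
          Or.inl ⟨(k2 c0 n0 f1 f2 f3).1, Or.inr (k2 c0 n0 f1 f2 f3).2⟩⟩)
    · exact Or.inr (Or.inl (Or.inl ⟨a2, not_and_or.1 a3⟩))
  by_cases a3 : cp.Blk (y + d (i + 1)) ∧ cp.NC3 (y + d (i + 2))
  · have a4 := e2.resolve_left (not_not.2 a3.2)
    by_cases a2 : cm.NC3 (y + d (i + 1))
    · obtain ⟨k1, k2 | k2⟩ := H92.lc4_core (w := p.lv) hp (Or.inr rfl) km kp ym yp lm (by omega)
        ne a2 a3.1 a3.2
      · exact Or.inr (Or.inl (Or.inr k2))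
      · exact Or.inr (Or.inr ⟨Or.inl k1, fun c0 n0 f1 f2 f3 =>
          Or.inl ⟨(k2 c0 n0 f1 f2 f3).1, Or.inr (k2 c0 n0 f1 f2 f3).2⟩⟩)
    · exact Or.inr (Or.inl (Or.inl ⟨a2, Or.inr a4⟩))
  · exact Or.inl (Or.inl ⟨a1, not_and_or.1 a3⟩)

/-! ### Composite moves -/

/-- landing on a clean site with four open positions -/
theorem land4_game (G : Gm Lo N) (hp : p.Ok Lo) (ha : p.Adj y) (hb : ¬ p.Blk y) (i : ZMod 6)
    (tip : Prop) {g : ℤ} (hg : 0 ≤ g) :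
    ∃ c, p.Ext Lo c ∧ c.On y ∧ c.G4 y i tip (g + 2 - p.cost c) := by
  by_cases h0 : p.cnt y = 0
  swap
  · obtain ⟨e, he, hf⟩ := free_of hb
    obtain ⟨c, nw, -, a2, -, a4, -, a6, -, a8, -⟩ := G.land hp (ha e he) hf
    exact ⟨c, a4, a2, Or.inl (f4_of_pos a4.1.2 (by omega) (by omega))⟩
  have key : ∀ e, Of e → ∃ c nw, Kid p c nw ∧ c.lv = p.lv + e ∧ p.Ext Lo c ∧ c.On y ∧
      (c.G4 y i tip (g + 2 - p.cost c) ∨ (nw ≠ 0 ∧
        (c.LC y i tip → c.G4 y i tip (g + 2 - p.cost c)))) := fun e he => by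
    obtain ⟨c, nw, a1, a2, a3, a4, -, a6, a7, -, -⟩ := G.land hp (ha e he) (free_zero hp.2 h0 _)
    refine ⟨c, nw, a1, a3, a4, a2, ?_⟩
    by_cases f : 1 ≤ g + 2 - p.cost c + c.cnt y
    · exact Or.inl (Or.inl (f4_of_pos a4.1.2 (by omega) f))
    · exact Or.inr ⟨fun z => by have := a7 z; omega, fun l => Or.inr ⟨by omega, by omega, l⟩⟩
  obtain ⟨cp, np, kp, lp, ep, op, f | ⟨yp, fp⟩⟩ := key 1 (Or.inr (Or.inr rfl))
  · exact ⟨cp, ep, op, f⟩
  obtain ⟨cm, nm, km, lm, em, om, f | ⟨ym, fm⟩⟩ := key (-1) (Or.inl rfl)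
  · exact ⟨cm, em, om, f⟩
  obtain ⟨c0, n0, k0, l0, e0, o0, f | ⟨y0, f0⟩⟩ := key 0 of_zero
  · exact ⟨c0, e0, o0, f⟩
  rcases lc_choice hp.2 kp km yp ym lp lm y i tip with l | l | l
  · exact ⟨cp, ep, op, fp l⟩
  · exact ⟨cm, em, om, fm l⟩
  · exact ⟨c0, e0, o0, f0 (l.2 c0 n0 k0 y0 (by omega))⟩

/-- landing with three open positions, clean or with a spare token -/
theorem land3_game (G : Gm Lo N) (hp : p.Ok Lo) (ha : p.Adj y) (hb : ¬ p.Blk y) (u : Site)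
    {k : ℕ} (hk : k ≤ 1) (hk' : k ≤ p.cnt y) {g : ℤ} (hg : 0 ≤ g)
    (hf : k = 0 ∨ 1 ≤ g + p.cnt y - k) :
    ∃ c, p.Ext Lo c ∧ c.On y ∧ c.G3 y u k (g + 2 - p.cost c) := by
  by_cases h1 : 1 ≤ g + p.cnt y - k
  · obtain ⟨e, he, hf⟩ := free_of hb
    obtain ⟨c, nw, -, a2, -, a4, -, a6, -, a8, -⟩ := G.land hp (ha e he) hf
    exact ⟨c, a4, a2, g3_of_pos a4.1.2 hk (by omega) (by omega)⟩
  have h0 : p.cnt y = 0 := by omega
  have key : ∀ e, Of e → ∃ c nw, Kid p c nw ∧ c.lv = p.lv + e ∧ p.Ext Lo c ∧ c.On y ∧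
      (c.G3 y u k (g + 2 - p.cost c) ∨ (nw ≠ 0 ∧
        (¬ c.NC3 u → c.G3 y u k (g + 2 - p.cost c)))) := fun e he => by
    obtain ⟨c, nw, a1, a2, a3, a4, -, a6, a7, -, -⟩ := G.land hp (ha e he) (free_zero hp.2 h0 _)
    refine ⟨c, nw, a1, a3, a4, a2, ?_⟩
    by_cases f : 1 ≤ g + 2 - p.cost c + c.cnt y - k
    · exact Or.inl (g3_of_pos a4.1.2 hk (by omega) f)
    · exact Or.inr ⟨fun z => by have := a7 z; omega,
        fun l => Or.inr (Or.inr ⟨by omega, by omega, l⟩)⟩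
  obtain ⟨cp, np, kp, lp, ep, op, f | ⟨yp, fp⟩⟩ := key 1 (Or.inr (Or.inr rfl))
  · exact ⟨cp, ep, op, f⟩
  obtain ⟨cm, nm, km, lm, em, om, f | ⟨ym, fm⟩⟩ := key (-1) (Or.inl rfl)
  · exact ⟨cm, em, om, f⟩
  rcases n0 (u := u) hp.2 kp km yp ym lp (by omega) with l | l
  · exact ⟨cp, ep, op, fp l⟩
  · exact ⟨cm, em, om, fm l⟩

/-- landing on a site with three known tokens and a debt of one -/
theorem heavy_game (G : Gm Lo N) (hp : p.Ok Lo) (ha : p.Adj y) (hb : ¬ p.Blk y)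
    (h3 : 3 ≤ p.cnt y) : ∃ c, p.Ext Lo c ∧ c.On y ∧ c.F4 y (1 - p.cost c) := by
  obtain ⟨e, he, hf⟩ := free_of hb
  obtain ⟨c, nw, -, a2, -, a4, -, a6, -, a8, a9⟩ := G.land hp (ha e he) hf
  refine ⟨c, a4, a2, by omega, ?_⟩
  rw [← or_assoc]
  exact Or.inl (by omega)

/-- through a gate to the site behind the corner -/
theorem pass_game (G : Gm Lo N) (hp : p.Ok Lo) (hb : p.On b) (hg : p.Gate b i)
    (ho : p.cnt (b + d (i + 1) + d i) = 0) :
    ∃ c, p.Ext Lo c ∧ p.cost c ≤ 2 ∧ c.Adj (b + d (i + 1) + d i) ∧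
      ¬ c.Blk (b + d (i + 1) + d i) := by
  obtain ⟨e, he, f | f⟩ := hg
  · obtain ⟨c, nw, a1, a2, a3, a4, a5⟩ := G.go hp (hb.near (near_t he)) f
    exact ⟨c, a3, by omega, adj_tp a2 fun _ => near_t_o, H92.after_zero hp.2 a1 ho⟩
  · obtain ⟨c, nw, a1, a2, a3, a4, a5⟩ := G.go hp (hb.near (near_T he)) f
    exact ⟨c, a3, by omega, adj_tp a2 fun _ => near_T_o, H92.after_zero hp.2 a1 ho⟩

/-- the three routes around a column -/
theorem k2_game (G : Gm Lo N) (hp : p.Ok Lo) (hb : p.On b) (hx : p.COL (b + d (i + 1)))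
    (hg : p.Gate b i) (ho : p.cnt (b + d (i + 1) + d i) ≤ 1)
    (hz : p.cnt (b + d (i + 1) + d (i + 1)) = 0) :
    ∃ c, p.Ext Lo c ∧
      ((p.cost c ≤ 2 ∧ c.Adj (b + d (i + 1) + d i) ∧ ¬ c.Blk (b + d (i + 1) + d i)) ∨
       ((p.cost c ≤ 2 ∨ (p.cost c ≤ 4 ∧
            p.cnt (b + d (i + 1) + d i) + 2 ≤ c.cnt (b + d (i + 1) + d i))) ∧
          c.Adj (b + d (i + 1) + d (i + 1)) ∧ ¬ c.Blk (b + d (i + 1) + d (i + 1)))) := by
  obtain ⟨e, he, f | f⟩ := hg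
  · obtain ⟨c, nw, a1, a2, a3, a4, a5⟩ := G.go hp (hb.near (near_t he)) f
    by_cases h : c.Blk (b + d (i + 1) + d i)
    swap
    · exact ⟨c, a3, Or.inl ⟨by omega, adj_tp a2 fun _ => near_t_o, h⟩⟩
    obtain ⟨b1, b2, e', he', f'⟩ := H92.tc_free hp.2 hx a1 ho hz h
    obtain ⟨c', nw', e1, e2, e3, e4, e5⟩ := G.go a3.1
      (by rw [lv_tp a2, a2]; exact near_t_tc he') f'
    have k1 := a1.cnt (b + d (i + 1) + d i)
    have k2 := e1.cnt (b + d (i + 1) + d i)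
    have k3 := p.cost_add c c'
    exact ⟨c', e3.after a3, Or.inr ⟨Or.inr ⟨by omega, by omega⟩, adj_tp e2 fun _ => near_tc_z,
      H92.after_zero a3.1.2 e1 b2⟩⟩
  · obtain ⟨c, nw, a1, a2, a3, a4, a5⟩ := G.go hp (hb.near (near_T he)) f
    exact ⟨c, a3, Or.inr ⟨Or.inl (by omega), adj_tp a2 fun _ => near_T_z,
      H92.after_zero hp.2 a1 hz⟩⟩

theorem Nd.On.step (h : c.On b) {w s : ℤ} (hs : Sg s) (hl : c.lv = w + s) (i : ZMod 6) :
    Near c.k (sp (b + d i) (w + 2 * s)) := by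
  rw [show w + 2 * s = c.lv + s by omega]
  exact h.adj i s hs.of

/-- climb one level above `b`, then one of the two corners is free one level further -/
theorem x_game (G : Gm Lo N) (hp : p.Ok Lo) (hb : p.On b) (h1 : p.H1 b)
    (hx : p.NC3 (b + d (i + 1))) (hx2 : p.NC3 (b + d (i + 2)))
    (ho : p.cnt (b + d (i + 2) + d (i + 1)) = 0) (hg : ¬ p.Gate b (i + 1)) :
    ∃ c, p.Ext Lo c ∧ ((c.On (b + d (i + 1)) ∧ c.F4 (b + d (i + 1)) (2 - p.cost c)) ∨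
      (c.On (b + d (i + 2)) ∧ c.F4 (b + d (i + 2)) (2 - p.cost c))) := by
  obtain ⟨n, -, s, hs, l1, l2⟩ := h1
  obtain ⟨c, nw, a1, a2, a3, a4, -⟩ := G.land hp (hb.near (near_up hs))
    (H92.not_att_up n (H92.not_line.1 l1))
  rw [show i + 2 = i + 1 + 1 by ring] at hx2 ho ⊢
  rw [add_right_comm] at ho
  rcases H92.x_core hp.2 hx hx2 ho hg hs l2 a1 with f | f
  · obtain ⟨c', e1, -, e2⟩ := G.cross hp a1 a4 hx hs (a2.step hs a3 _) f
    exact ⟨c', e1, Or.inl e2⟩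
  · obtain ⟨c', e1, -, e2⟩ := G.cross hp a1 a4 hx2 hs (a2.step hs a3 _) f
    exact ⟨c', e1, Or.inr e2⟩

theorem back_d (b : Site) (i : ZMod 6) : b + d (i + 2) + d i = b + d (i + 1) := by
  rw [add_right_comm, H92.add_d2]

/-- a landing one level aside tests the blocked neighbour again -/
theorem retest_side (G : Gm Lo N) (hp : p.Ok Lo) (hb : p.On b) (hx : p.NC3 (b + d (i + 1)))
    {s : ℤ} (hs : Sg s) (hf : ¬ Att p.Q (sp (b + d (i + 2)) (p.lv + s))) :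
    (∃ c, p.Ext Lo c ∧ c.On (b + d (i + 1)) ∧ c.F4 (b + d (i + 1)) (2 - p.cost c)) ∨
    ∃ c nw, Kid p c nw ∧ p.Ext Lo c ∧ c.On (b + d (i + 2)) ∧ c.lv = p.lv + s ∧
      p.cnt (b + d (i + 2)) ≤ c.cnt (b + d (i + 2)) ∧
      0 ≤ 2 - p.cost c - c.pay (b + d (i + 1)) ∧
      (1 ≤ 2 - p.cost c - c.pay (b + d (i + 1)) ∨ 1 ≤ nw.count (b + d (i + 1))) := by
  obtain ⟨c, nw, a1, a2, a3, a4, a5, a6, a7, a8, -⟩ := G.land hp (hb.adj _ s hs.of) hf
  by_cases f : Att c.Q (sp (b + d (i + 1)) (p.lv + 2 * s))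
  · refine Or.inr ⟨c, nw, a1, a4, a2, a3, a8, ?_⟩
    have k1 := pay_le c (b + d (i + 1))
    rcases H92.retest hp.2 hx a1 hs f with e | e
    · have := a7 e
      omega
    · have k2 := a1.cnt (b + d (i + 1))
      have k3 := hx.1.three hp.2
      have := pay_zero (p := c) (x := b + d (i + 1)) (by omega)
      omega
  · obtain ⟨c', e1, -, e2⟩ := G.cross hp a1 a4 hx hs (back_d b i ▸ a2.step hs a3 i) f
    exact Or.inl ⟨c', e1, e2⟩

/-- the second test into a site with three open positions -/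
theorem retest3_game (G : Gm Lo N) (hp : p.Ok Lo) (hb : p.On b) (hx : p.NC3 (b + d (i + 1)))
    (hr : ¬ p.Blk (b + d (i + 2))) (u : Site) :
    ∃ c, p.Ext Lo c ∧ ((c.On (b + d (i + 1)) ∧ c.F4 (b + d (i + 1)) (2 - p.cost c)) ∨
      (c.On (b + d (i + 2)) ∧
        c.G3 (b + d (i + 2)) u 0 (2 - p.cost c - c.pay (b + d (i + 1))))) := by
  by_cases h0 : p.cnt (b + d (i + 2)) = 0
  · rcases retest_side G hp hb hx (Or.inl rfl) (free_zero hp.2 h0 _) with ⟨c, a1, a2⟩ |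
      ⟨cp, np, kp, ep, op, lp, -, gp, fp⟩
    · exact ⟨c, a1, Or.inl a2⟩
    rcases retest_side G hp hb hx (Or.inr rfl) (free_zero hp.2 h0 _) with ⟨c, a1, a2⟩ |
      ⟨cm, nm, km, em, om, lm, -, gm, fm⟩
    · exact ⟨c, a1, Or.inl a2⟩
    by_cases f1 : 1 ≤ 2 - p.cost cp - cp.pay (b + d (i + 1)) + cp.cnt (b + d (i + 2))
    · exact ⟨cp, ep, Or.inr ⟨op, g3_of_pos ep.1.2 (by omega) gp (by omega)⟩⟩
    by_cases f2 : 1 ≤ 2 - p.cost cm - cm.pay (b + d (i + 1)) + cm.cnt (b + d (i + 2))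
    · exact ⟨cm, em, Or.inr ⟨om, g3_of_pos em.1.2 (by omega) gm (by omega)⟩⟩
    have yp : np ≠ 0 := fun z => by rw [z, Multiset.count_zero] at fp; omega
    have ym : nm ≠ 0 := fun z => by rw [z, Multiset.count_zero] at fm; omega
    rcases n0 (u := u) hp.2 kp km yp ym lp (by omega) with l | l
    · exact ⟨cp, ep, Or.inr ⟨op, Or.inr (Or.inr ⟨gp, by omega, l⟩)⟩⟩
    · exact ⟨cm, em, Or.inr ⟨om, Or.inr (Or.inr ⟨gm, by omega, l⟩)⟩⟩
  by_cases hs : p.Side (b + d (i + 2))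
  · obtain ⟨s, hs, f⟩ := hs
    rcases retest_side G hp hb hx hs f with ⟨c, a1, a2⟩ | ⟨c, nw, -, a1, a2, -, a3, a4, -⟩
    · exact ⟨c, a1, Or.inl a2⟩
    · exact ⟨c, a1, Or.inr ⟨a2, g3_of_pos a1.1.2 (by omega) a4 (by omega)⟩⟩
  have h2 := two_sides hp.2 hs
  obtain ⟨e, he, f⟩ := free_of hr
  obtain ⟨c, nw, -, a2, -, a4, -, a6, -, a8, a9⟩ := G.land hp (hb.adj _ e he) f
  have k1 := pay_le c (b + d (i + 1))
  refine ⟨c, a4, Or.inr ⟨a2, ?_⟩⟩
  rw [Nd.G3, ← or_assoc]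
  exact Or.inl (by omega)

/-- the second test into a site with four open positions -/
theorem retest4_game (G : Gm Lo N) (hp : p.Ok Lo) (hb : p.On b) (hx : p.NC3 (b + d (i + 1)))
    (hr : ¬ p.Blk (b + d (i + 2))) (hs : p.Side (b + d (i + 2)) ∨ 3 ≤ p.cnt (b + d (i + 2)))
    (tip : Prop) :
    ∃ c, p.Ext Lo c ∧ ((c.On (b + d (i + 1)) ∧ c.F4 (b + d (i + 1)) (2 - p.cost c)) ∨
      (c.On (b + d (i + 2)) ∧
        c.G4 (b + d (i + 2)) i tip (2 - p.cost c - c.pay (b + d (i + 1))))) := by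
  by_cases h0 : p.cnt (b + d (i + 2)) = 0
  · rcases retest_side G hp hb hx (Or.inl rfl) (free_zero hp.2 h0 _) with ⟨c, a1, a2⟩ |
      ⟨cp, np, kp, ep, op, lp, -, gp, fp⟩
    · exact ⟨c, a1, Or.inl a2⟩
    rcases retest_side G hp hb hx (Or.inr rfl) (free_zero hp.2 h0 _) with ⟨c, a1, a2⟩ |
      ⟨cm, nm, km, em, om, lm, -, gm, fm⟩
    · exact ⟨c, a1, Or.inl a2⟩
    by_cases f1 : 1 ≤ 2 - p.cost cp - cp.pay (b + d (i + 1)) + cp.cnt (b + d (i + 2))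
    · exact ⟨cp, ep, Or.inr ⟨op, Or.inl (f4_of_pos ep.1.2 gp f1)⟩⟩
    by_cases f2 : 1 ≤ 2 - p.cost cm - cm.pay (b + d (i + 1)) + cm.cnt (b + d (i + 2))
    · exact ⟨cm, em, Or.inr ⟨om, Or.inl (f4_of_pos em.1.2 gm f2)⟩⟩
    have yp : np ≠ 0 := fun z => by rw [z, Multiset.count_zero] at fp; omega
    have ym : nm ≠ 0 := fun z => by rw [z, Multiset.count_zero] at fm; omega
    have ne : b + d (i + 1) ≠ b + d (i + 2) + d (i + 1) := by
      rw [add_right_comm]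
      exact (H7.add_d_ne _ _).symm
    rcases lc_choice hp.2 kp km yp ym lp lm (b + d (i + 2)) i tip with l | l | ⟨l | l, -⟩
    · exact ⟨cp, ep, Or.inr ⟨op, Or.inr ⟨gp, by omega, l⟩⟩⟩
    · exact ⟨cm, em, Or.inr ⟨om, Or.inr ⟨gm, by omega, l⟩⟩⟩
    · have := H92.kid_two kp l ne
      omega
    · have := H92.kid_two km l ne
      omega
  rcases hs with ⟨s, hs, f⟩ | h3
  · rcases retest_side G hp hb hx hs f with ⟨c, a1, a2⟩ | ⟨c, nw, -, a1, a2, -, a3, a4, -⟩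
    · exact ⟨c, a1, Or.inl a2⟩
    · exact ⟨c, a1, Or.inr ⟨a2, Or.inl (f4_of_pos a1.1.2 a4 (by omega))⟩⟩
  · obtain ⟨c, a1, a2, a3⟩ := heavy_game G hp (hb.adj _) hr h3
    have k1 := pay_le c (b + d (i + 1))
    exact ⟨c, a1, Or.inr ⟨a2, Or.inl (a3.le (by omega))⟩⟩

/-- what the king reaches from the landing node on the notch `y` with corners `y + d i` and
`y + d (i + 1)` -/
def Nd.Out (Lo : Pt → Finset Pt → Prop) (c : Nd) (y : Site) (i : ZMod 6) : Prop :=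
  ∃ c', c.Ext Lo c' ∧
    ((c.cost c' ≤ 2 ∧ c'.Adj (y + d (i + 1) + d i) ∧ ¬ c'.Blk (y + d (i + 1) + d i)) ∨
     (c'.On (y + d i) ∧ c'.F4 (y + d i) (2 - c.cost c')) ∨
     (c'.On (y + d (i + 1)) ∧ c'.F4 (y + d (i + 1)) (2 - c.cost c' - c'.pay (y + d i))))

theorem cnt_le {c' : Nd} (h : c.T ≤ c'.T) (s : Site) : c.cnt s ≤ c'.cnt s :=
  Multiset.count_le_of_le s h

/-- from the upper landing to the near triangle -/
theorem out_top (G : Gm Lo N) {cp c0 : Nd} {np n0 : Multiset Site} {w s : ℤ}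
    (h : H92.Dirty p cp c0 np n0 y (y + d i) w s) (ok : cp.Ok Lo) (op : cp.On y)
    (hb : cp.Blk (y + d (i + 1))) (hb0 : c0.Blk (y + d (i + 1))) (h2 : p.cnt (y + d (i + 1)) ≤ 2)
    (h3 : p.cnt (y + d i + d (i + 1)) ≤ 3) :
    cp.Out Lo y i ∨ H92.an p.Q (y + d i + d (i + 1)) (w - s) = 0 := by
  have hs := h.sg
  have lp := h.lp
  obtain ⟨n2, -, f, -⟩ := h.two_case hb hb0 h2
  have l2 : w + 2 * s = cp.lv + s := by omega
  have l3 : w + 3 * s = cp.lv + 2 * s := by omega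
  rw [l2] at f
  obtain ⟨g, ng, a1, a2, a3, a4, a5⟩ := G.go ok (op.near (near_t hs.of)) f
  have lg := lv_tp a2
  have j1 : g.Adj (y + d i) := adj_tp a2 fun _ => near_t_a
  have j2 : g.Adj (y + d (i + 1)) := adj_tp a2 fun _ => near_t_x
  have l4 : cp.lv + 2 * s = g.lv + s := by omega
  by_cases b0 : g.Blk (y + d (i + 1) + d i)
  swap
  · exact Or.inl ⟨g, a3, Or.inl ⟨by omega, adj_tp a2 fun _ => near_t_o, b0⟩⟩
  by_cases b1 : Att g.Q (sp (y + d i) (cp.lv + 2 * s))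
  swap
  · obtain ⟨c', e1, -, e2⟩ := G.cross ok a1 a3 h.xp hs (l4 ▸ j1 s hs.of) b1
    exact Or.inl ⟨c', e1, Or.inr (Or.inl e2)⟩
  have k1 := a1.cnt (y + d i)
  have k2 := h.xp.1.three ok.2
  by_cases b2 : Att g.Q (sp (y + d (i + 1)) (cp.lv + 2 * s))
  swap
  · rcases H92.retest ok.2 h.xp a1 hs b1 with e | e
    · obtain ⟨c', nw', -, e2, -, e4, -, e6, -, e8, e9⟩ := G.land a3.1 (l4 ▸ j2 s hs.of) b2
      have k3 := cp.cost_add g c'
      have k4 := pay_le c' (y + d i)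
      have k5 := a1.cnt (y + d (i + 1))
      have k6 := hb.three ok.2
      rw [e, Multiset.card_zero] at a4
      refine Or.inl ⟨c', e4.after a3, Or.inr (Or.inr ⟨e2, by omega, ?_⟩)⟩
      rw [← or_assoc]
      exact Or.inl (by omega)
    · obtain ⟨c', e1, e0, e2, e3⟩ := G.cross ok a1 a3 n2 hs (l4 ▸ j2 s hs.of) b2
      have k3 := cnt_le e0 (y + d i)
      have k4 := pay_zero (p := c') (x := y + d i) (by omega)
      exact Or.inl ⟨c', e1, Or.inr (Or.inr ⟨e2, e3.le (by omega)⟩)⟩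
  rw [add_right_comm] at b0
  rcases h.top hb hb0 h2 h3 a1 (by omega) b0 (l3 ▸ b1) (l3 ▸ b2) with ⟨e, f'⟩ | e
  · obtain ⟨v, hv, f''⟩ := free_of f'
    obtain ⟨c', nw', -, e2, -, e4, -, e6, -, e8, -⟩ := G.land a3.1 (j1 v hv) f''
    have k3 := cp.cost_add g c'
    rw [e, Multiset.card_zero] at a4
    exact Or.inl ⟨c', e4.after a3, Or.inr (Or.inl ⟨e2, by omega, Or.inl (by omega)⟩)⟩
  · exact Or.inr e

/-- the capture on the near triangle -/
theorem out_capture (G : Gm Lo N) (ok : c.Ok Lo) (oc : c.On y) {s : ℤ} (hs : Sg s)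
    (h1 : c.NC3 (y + d i)) (h2 : c.NC3 (y + d (i + 1))) (ht : tp y i (c.lv + s) ∈ c.Q)
    (f : ¬ Att c.Q (tp y i (c.lv + s))) : c.Out Lo y i := by
  obtain ⟨g, ng, a1, a2, a3, a4, a5⟩ := G.go ok (oc.near (near_t hs.of)) f
  have lg := lv_tp a2
  have j1 : g.Adj (y + d i) := adj_tp a2 fun _ => near_t_a
  have j2 : g.Adj (y + d (i + 1)) := adj_tp a2 fun _ => near_t_x
  have l4 : c.lv + 2 * s = g.lv + s := by omega
  have l0 : c.lv + s = g.lv + 0 := by omega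
  by_cases b1 : Att g.Q (sp (y + d i) (c.lv + 2 * s))
  swap
  · obtain ⟨c', e1, -, e2⟩ := G.cross ok a1 a3 h1 hs (l4 ▸ j1 s hs.of) b1
    exact ⟨c', e1, Or.inr (Or.inl e2)⟩
  have k1 := a1.cnt (y + d i)
  have k2 := h1.1.three ok.2
  by_cases b2 : Att g.Q (sp (y + d i) (c.lv + s))
  · obtain ⟨e, b3⟩ := H92.capture_core ok.2 hs h1 h2 ht a1 a2 b2 b1
    obtain ⟨c', e1, e0, e2, e3⟩ := G.cross ok a1 a3 h2 hs (l4 ▸ j2 s hs.of) b3
    have k3 := cnt_le e0 (y + d i)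
    have k4 := pay_zero (p := c') (x := y + d i) (by omega)
    exact ⟨c', e1, Or.inr (Or.inr ⟨e2, e3.le (by omega)⟩)⟩
  · obtain ⟨c', nw', -, e2, -, e4, -, e6, -, e8, e9⟩ := G.land a3.1 (l0 ▸ j1 0 of_zero) b2
    have k3 := c.cost_add g c'
    refine ⟨c', e4.after a3, Or.inr (Or.inl ⟨e2, by omega, ?_⟩)⟩
    rw [← or_assoc]
    rcases H92.retest ok.2 h1 a1 hs b1 with e | e
    · rw [e, Multiset.card_zero] at a4
      exact Or.inl (by omega)
    · exact Or.inl (by omega)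

/-- both landings on the notch are answered by closing both corners -/
theorem dirty_out (G : Gm Lo N) {cp c0 : Nd} {np n0 : Multiset Site} {w s : ℤ}
    (h : H92.Dirty p cp c0 np n0 y (y + d i) w s) (ok : cp.Ok Lo) (op : cp.On y) (ok0 : c0.Ok Lo)
    (o0 : c0.On y) (hb : cp.Blk (y + d (i + 1))) (hb0 : c0.Blk (y + d (i + 1)))
    (h3 : p.cnt (y + d (i + 1)) ≤ 3) (h4 : p.cnt (y + d i + d (i + 1)) ≤ 3)
    (h5 : p.cnt (y + d (i + 1)) ≤ 2 ∨ p.cnt (y + d i + d (i + 1)) = 0) :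
    cp.Out Lo y i ∨ c0.Out Lo y i := by
  have hs := h.sg
  have lp := h.lp
  have l0 := h.l0
  have l1 : w - s = c0.lv + -s := by omega
  have l2 : w + 2 * s = cp.lv + s := by omega
  by_cases h2 : p.cnt (y + d (i + 1)) ≤ 2
  · refine (out_top G h ok op hb hb0 h2 h4).imp id fun e => ?_
    obtain ⟨-, n0, -, -, -, -, f⟩ := h.two_case hb hb0 h2
    obtain ⟨f1, f2⟩ := f e
    rw [l1] at f1 f2
    exact out_capture G ok0 o0 (H92.Sg.neg hs) h.x0 n0 f1 f2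
  have ho := h5.resolve_left h2
  by_cases hc : Col p.Q (y + d (i + 1))
  · obtain ⟨f, e1, e2⟩ := h.col_case hb h3 hc ho
    rw [l2] at f e2
    have key : ∀ g ng, Kid cp g ng → g.lv = cp.lv + s → ¬ g.Blk (y + d (i + 1) + d i) :=
      fun g ng a1 a2 b => by
        rw [add_right_comm] at b
        obtain ⟨-, v, -, -, v2, -, v4, -⟩ := H92.after_one ok.2 a1 e1 b
        have := e2 v (by omega)
        omega
    rcases f with f | f
    · obtain ⟨g, ng, a1, a2, a3, a4, a5⟩ := G.go ok (op.near (near_t hs.of)) f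
      exact Or.inl ⟨g, a3, Or.inl ⟨by omega, adj_tp a2 fun _ => near_t_o, key g ng a1 (lv_tp a2)⟩⟩
    · obtain ⟨g, ng, a1, a2, a3, a4, a5⟩ := G.go ok (op.near (near_T hs.of)) f
      exact Or.inl ⟨g, a3, Or.inl ⟨by omega, adj_tp a2 fun _ => near_T_o, key g ng a1 (lv_tp a2)⟩⟩
  · obtain ⟨f, e1⟩ := h.three_case hb hb0 h3 hc ho
    rw [l1] at f
    rw [add_right_comm] at e1
    obtain ⟨g, ng, a1, a2, a3, a4, a5⟩ := G.go ok0 (o0.near (near_T (H92.Sg.neg hs).of)) f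
    exact Or.inr ⟨g, a3, Or.inl ⟨by omega, adj_tp a2 fun _ => near_T_o,
      H92.after_zero ok0.2 a1 e1⟩⟩

/-- landing on a notch whose only token is spent -/
theorem lcd_game (G : Gm Lo N) (hp : p.Ok Lo) (ha : p.Adj y) (h1 : p.cnt y ≤ 1) (i : ZMod 6) :
    ∃ c, p.Ext Lo c ∧ c.On y ∧ p.cost c ≤ 2 ∧
      (c.G3 y (y + d (i + 1)) 1 (2 - p.cost c) ∨
       (c.NC3 (y + d (i + 1)) ∧ ¬ c.Blk (y + d (i + 2)) ∧
          (c.Side (y + d (i + 2)) ∨ 3 ≤ c.cnt (y + d (i + 2)))) ∨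
       (c.NC3 (y + d (i + 1)) ∧ c.Blk (y + d (i + 2)) ∧
          ((2 ≤ p.cnt (y + d (i + 1)) ∧ 2 ≤ p.cnt (y + d (i + 2)) ∧
              (4 ≤ p.cnt (y + d (i + 2)) ∨
               (3 ≤ p.cnt (y + d (i + 2)) ∧ 1 ≤ p.cnt (y + d (i + 2) + d (i + 1))) ∨
               4 ≤ p.cnt (y + d (i + 2) + d (i + 1)))) ∨
           ∃ c', c.Ext Lo c' ∧
             ((c.cost c' ≤ 2 ∧ c'.Adj (y + d (i + 2) + d (i + 1)) ∧
                 ¬ c'.Blk (y + d (i + 2) + d (i + 1))) ∨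
              (c'.On (y + d (i + 1)) ∧ c'.F4 (y + d (i + 1)) (2 - c.cost c')) ∨
              (c'.On (y + d (i + 2)) ∧
                 c'.F4 (y + d (i + 2)) (2 - c.cost c' - c'.pay (y + d (i + 1)))))))) := by
  rw [show i + 2 = i + 1 + 1 by ring]
  generalize i + 1 = j
  have s1 := H92.sound_le hp.2 y
  have n : ¬ Col p.Q y := H92.not_col_of_le (by omega)
  have key : ∀ e, Of e → H92.an p.Q y (p.lv + e) = 0 → ∃ c nw, Kid p c nw ∧ c.lv = p.lv + e ∧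
      p.Ext Lo c ∧ c.On y ∧ p.cost c ≤ 2 ∧ (c.G3 y (y + d j) 1 (2 - p.cost c) ∨
        (nw ≠ 0 ∧ c.cnt y ≤ 1 ∧ c.NC3 (y + d j))) := fun e he z => by
    obtain ⟨c, nw, a1, a2, a3, a4, -, a6, a7, -, -⟩ := G.land hp (ha e he) (H92.not_att_up n z)
    refine ⟨c, nw, a1, a3, a4, a2, a6, ?_⟩
    by_cases f : 1 ≤ 2 - p.cost c + c.cnt y - (1 : ℕ)
    · exact Or.inl (g3_of_pos a4.1.2 le_rfl (by omega) f)
    by_cases f' : c.NC3 (y + d j)
    · exact Or.inr ⟨fun z => by have := a7 z; omega, by omega, f'⟩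
    · exact Or.inl (Or.inr (Or.inr ⟨by omega, by omega, f'⟩))
  have side : (H92.an p.Q y (p.lv + 1) = 0 ∧ H92.an p.Q y (p.lv + -1) = 0) ∨
      ∃ s, Sg s ∧ 1 ≤ H92.an p.Q y (p.lv - s) := by
    by_cases z1 : H92.an p.Q y (p.lv + 1) = 0
    · by_cases z2 : H92.an p.Q y (p.lv + -1) = 0
      · exact Or.inl ⟨z1, z2⟩
      · exact Or.inr ⟨1, Or.inl rfl, Nat.one_le_iff_ne_zero.2 z2⟩
    · exact Or.inr ⟨-1, Or.inr rfl, by rw [sub_neg_eq_add]; omega⟩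
  rcases side with ⟨z1, z2⟩ | ⟨s, hs, z⟩
  · obtain ⟨cp, np, kp, lp, ep, op, gp, f | ⟨yp, -, fp⟩⟩ := key 1 (Or.inr (Or.inr rfl)) z1
    · exact ⟨cp, ep, op, gp, Or.inl f⟩
    obtain ⟨cm, nm, km, lm, em, om, gm, f | ⟨ym, -, fm⟩⟩ := key (-1) (Or.inl rfl) z2
    · exact ⟨cm, em, om, gm, Or.inl f⟩
    exact absurd fm ((n0 hp.2 kp km yp ym lp (by omega)).resolve_left (not_not.2 fp))
  have s0 : s = 1 ∨ s = -1 := hs
  have z3 := H92.an3 p.Q y (v1 := p.lv - s) (v2 := p.lv + s) (v3 := p.lv + 0) (by omega)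
  obtain ⟨cp, np, kp, lp, ep, op, gp, f | ⟨yp, bp, fp⟩⟩ := key s hs.of (by omega)
  · exact ⟨cp, ep, op, gp, Or.inl f⟩
  obtain ⟨c0, n0, k0, l0, e0, o0, g0, f | ⟨y0, b0, f0⟩⟩ := key 0 of_zero (by omega)
  · exact ⟨c0, e0, o0, g0, Or.inl f⟩
  have h : H92.Dirty p cp c0 np n0 y (y + d j) p.lv s :=
    ⟨hp.2, hs, kp, k0, yp, y0, lp, by omega, bp, b0, z, fp, f0⟩
  by_cases hb : cp.Blk (y + d (j + 1)) ∧ c0.Blk (y + d (j + 1))
  swap
  · obtain ⟨c, e, f⟩ := h.second (not_and_or.1 hb)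
    have f' : ¬ c.Blk (y + d (j + 1)) ∧ (c.Side (y + d (j + 1)) ∨ 3 ≤ c.cnt (y + d (j + 1))) := by
      rcases f with ⟨t, ht, f⟩ | f
      · exact ⟨not_blk ht.of f, Or.inl ⟨t, ht, f⟩⟩
      · exact ⟨fun a => f.1 a.2.1, Or.inr f.2⟩
    rcases e with rfl | rfl
    · exact ⟨c, ep, op, gp, Or.inr (Or.inl ⟨fp, f'⟩)⟩
    · exact ⟨c, e0, o0, g0, Or.inr (Or.inl ⟨f0, f'⟩)⟩
  have m1 := h.x_data.1
  have m2 := h.second_two hb.1
  by_cases m : 4 ≤ p.cnt (y + d (j + 1)) ∨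
      (3 ≤ p.cnt (y + d (j + 1)) ∧ 1 ≤ p.cnt (y + d (j + 1) + d j)) ∨
      4 ≤ p.cnt (y + d (j + 1) + d j)
  · exact ⟨cp, ep, op, gp, Or.inr (Or.inr ⟨fp, hb.1, Or.inl ⟨by omega, m2, m⟩⟩)⟩
  rw [add_right_comm] at m
  rcases dirty_out G h ep.1 op e0.1 o0 hb.1 hb.2 (by omega) (by omega) (by omega) with f | f
  · exact ⟨cp, ep, op, gp, Or.inr (Or.inr ⟨fp, hb.1, Or.inr f⟩)⟩
  · exact ⟨c0, e0, o0, g0, Or.inr (Or.inr ⟨f0, hb.2, Or.inr f⟩)⟩

end Pool.Agent.MP_6bef34_co.H88
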