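import Pool.Agent.MP_6bef34_co.H92.Num
import Pool.Agent.MP_6bef34_co.H88.Api

/-! The node vocabulary in terms of line counts. -/

namespace Pool.Agent.MP_6bef34_co.H92

open Finset Pool.Agent.MP_6bef34_co.H7
open Pool.Agent.MP_6bef34_co.H88 (Nd Kid Att Line sp tp tk tk3 toks newt)

variable {Q : Finset Pt} {s b : Site} {i : ZMod 6} {v : ℤ} {p c : Nd} {nw : Multiset Site}

theorem sp_eq (s : Site) (v : ℤ) : sp s v = up s v := rfl

theorem tp_eq (b : Site) (i : ZMod 6) (v : ℤ) : tp b i v = tri b i v := rfl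

theorem tk_eq (r : Pt) (j : Fin 3) : tk r j = site r j := rfl

theorem att_iff {x : Pt} : Att Q x ↔ ¬ Safe Q x := by
  simp only [Att, Safe, not_forall, not_not, exists_prop]
  rfl

theorem count_toks (Q : Finset Pt) (s : Site) : (toks Q).count s = cnt Q s := by
  rw [toks, Multiset.count_sum', cnt_eq]
  refine sum_congr rfl fun r _ => ?_
  rw [H88.count_tk3, Fin.sum_univ_three]
  rfl

theorem sound_le (h : p.Sound) (s : Site) : cnt p.Q s ≤ p.cnt s := count_toks p.Q s ▸ h.le s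

theorem line_iff : Line Q s v ↔ 1 ≤ an Q s v := by
  constructor
  · rintro ⟨r, a1, rfl, a3⟩
    obtain ⟨j, a4⟩ := H88.mem_tk3.1 a3
    exact an_pos a1 a4
  · intro h
    obtain ⟨r, a1, a2, a3⟩ := an_ex h
    exact ⟨r, a1, a2, H88.mem_tk3.2 a3⟩

theorem not_line : ¬ Line Q s v ↔ an Q s v = 0 := by
  rw [line_iff]
  omega

theorem kid_reply (h : Kid p c nw) : ∃ r r', Reply p.Q c.k r r' c.Q nw := by
  obtain ⟨r, r', i, h1, h2, h3, h4, h5, h6, h7, h8, -⟩ := h
  refine ⟨r, r', h1, h2, h3, h4, h7, ?_⟩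
  subst h8
  rcases H88.f4 i with rfl | rfl | rfl | rfl
  · have a1 := h6 1 (by decide)
    have a2 := h6 2 (by decide)
    refine Or.inr ⟨0, ⟨(h6 3 (by decide)).symm, by simp [a1, a2], fun j hj => ?_⟩, rfl⟩
    rcases three_cases j with rfl | rfl | rfl <;> simp [Prod.ext_iff] at hj ⊢ <;> omega
  · have a1 := h6 0 (by decide)
    have a2 := h6 2 (by decide)
    refine Or.inr ⟨1, ⟨(h6 3 (by decide)).symm, by simp [a1, a2], fun j hj => ?_⟩,
      Multiset.pair_comm _ _⟩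
    rcases three_cases j with rfl | rfl | rfl <;> simp [Prod.ext_iff] at hj ⊢ <;> omega
  · have a1 := h6 0 (by decide)
    have a2 := h6 1 (by decide)
    refine Or.inr ⟨2, ⟨(h6 3 (by decide)).symm, by simp [a1, a2], fun j hj => ?_⟩, rfl⟩
    rcases three_cases j with rfl | rfl | rfl <;> simp [Prod.ext_iff] at hj ⊢ <;> omega
  · have a0 := h6 0 (by decide)
    have a1 := h6 1 (by decide)
    have a2 := h6 2 (by decide)
    refine Or.inl ⟨⟨h5.symm, fun j => ?_⟩, rfl⟩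
    rcases three_cases j with rfl | rfl | rfl <;> simp [a0, a1, a2]

/-- attacked above a site -/
theorem att_up (h : Att Q (sp s v)) :
    (∃ u, u ≠ v ∧ up s u ∈ Q) ∨ (up s v ∉ Q ∧ 1 ≤ an Q s v) ∨ (up s v ∈ Q ∧ 4 ≤ an Q s v) :=
  not_safe_up (att_iff.1 h)

/-- attacked above a triangle -/
theorem att_tri (h : Att Q (tp b i v)) :
    (∃ u, u ≠ v ∧ tri b i u ∈ Q) ∨
    (tri b i v ∉ Q ∧ 1 ≤ ad Q b (dr i) v + ad Q (b + d i) (dr (i + 2)) v +
      ad Q (b + d (i + 1)) (dr (i + 1)) v) ∨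
    (tri b i v ∈ Q ∧ 4 ≤ ad Q b (dr i) v + ad Q (b + d i) (dr (i + 2)) v +
      ad Q (b + d (i + 1)) (dr (i + 1)) v) :=
  not_safe_tri (att_iff.1 h)

theorem col_iff' : H88.Col Q s ↔ ∃ w, up s w ∈ Q := Iff.rfl

/-- without a rook above the site an attack is a line on that level -/
theorem att_nc (h : Att Q (sp s v)) (hc : ¬ H88.Col Q s) : 1 ≤ an Q s v := by
  rcases att_up h with ⟨u, -, a⟩ | a | a
  · exact absurd ⟨u, a⟩ hc
  · exact a.2
  · omega

theorem nB_eq (p : Nd) (s : Site) : p.nB s = min 1 (an p.Q s (p.lv - 1)) + min 1 (an p.Q s p.lv) +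
    min 1 (an p.Q s (p.lv + 1)) := by
  simp only [Nd.nB, line_iff]
  split_ifs <;> omega

theorem nB_le (h : p.Sound) (s : Site) : p.nB s ≤ p.cnt s := by
  have a := an3 p.Q s (v1 := p.lv - 1) (v2 := p.lv) (v3 := p.lv + 1) (by omega)
  have b := sound_le h s
  rw [nB_eq]
  omega

end Pool.Agent.MP_6bef34_co.H92
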