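import Pool.Agent.MP_6bef34_co.H88.Good
import Pool.Agent.MP_6bef34_co.H28.Init
import Pool.Agent.MP_6bef34_co.H92.Node

/-! The first state of the contour walk is good, and the walk cannot go on for ever. -/

namespace Pool.Agent.MP_6bef34_co.H88

open Finset
open Pool.Agent.MP_6bef34_co.H7 (Site d Wall Box need)
open Pool.Agent.MP_6bef34_co.H28

variable {Lo : Pt → Finset Pt → Prop} {N : ℤ}

theorem no_lost (G : Gm Lo N) (hn : ∀ s, Good Lo N s → Nx Lo N s) (Q : Finset Pt)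
    (Z0 nw : Multiset Site) (h0 : ∀ u ∈ Z0, u.1 ≤ -2) (h2 : nw.card ≤ 2)
    (hQ : toks Q ≤ nw + Z0) : ¬ Lo (sp (0, 0) 0) Q := fun hL => by
  have hN : 0 ≤ N := (abs_nonneg _).trans (G.box _ _ hL).1
  obtain ⟨h, hg⟩ := Inv.start (P := par Lo N) (n := ⟨sp (0, 0) 0, Q, 0, 0⟩) h0
    (by simp only [par]; omega) ⟨hL, hQ, rfl⟩
  have hc := fun y => St.start_c h0 nw (⟨sp (0, 0) 0, Q, 0, 0⟩ : Nd) (y := y)
  have hz := fun y => St.start_z h0 nw (⟨sp (0, 0) 0, Q, 0, 0⟩ : Nd) (y := y)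
  have he : (St.start Z0 nw (⟨sp (0, 0) 0, Q, 0, 0⟩ : Nd)).e = ((0, 0), 1) := rfl
  have hD : (St.start Z0 nw (⟨sp (0, 0) 0, Q, 0, 0⟩ : Nd)).De = {(-1, 1)} := rfl
  have hv : ((0, 0) : Site) ∉ (St.start Z0 nw (⟨sp (0, 0) 0, Q, 0, 0⟩ : Nd)).V := notMem_empty _
  generalize St.start Z0 nw (⟨sp (0, 0) 0, Q, 0, 0⟩ : Nd) = s at h hg hc hz he hD hv
  have ok := (node_ok h (head_R h he) hv).1.2
  have c0 := hc (0, 0) (by decide)
  have z0 := hz (0, 0) (by decide)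
  have n0 := Multiset.count_le_card ((0, 0) : Site) nw
  have nb : (node s (0, 0)).nB (0, 0) ≤ s.z (0, 0) := Nd.nB_le_cnt ok _
  have k0 : ¬ K0 s.De ((0, 0) + d (1 + 1)) := fun k =>
    absurd (k 0 1 (Or.inl (by decide)) (Or.inl (by decide))) (by decide)
  refine H7.no_chain (Good Lo N) St.mu _ (fun s a => a.1.mu_le) hn s
    (good_c4 h he hv (by omega) ⟨by rw [hD]; decide, by omega, ?_⟩)
  simp only [fl]
  by_cases f2 : 2 ≤ s.g + s.z (0, 0)
  · exact Or.inr (Or.inl ⟨by omega, by omega⟩)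
  by_cases f1 : 1 ≤ s.g + s.z (0, 0)
  · exact Or.inr (Or.inr (Or.inl ⟨by omega, Nd.h1_of_cnt ok (by rw [node_cnt]; omega)⟩))
  refine Or.inr (Or.inr (Or.inr ⟨by omega, fun k => absurd k k0, fun _ n => ?_,
    fun k => absurd k k0⟩))
  have a1 := n.2.1
  have a2 := n.1.three ok
  have a3 := hz ((0, 0) + d (1 + 2)) (by decide)
  have a4 := Multiset.count_le_card (((0, 0) : Site) + d (1 + 2)) nw
  rw [node_cnt] at a2
  omega

end Pool.Agent.MP_6bef34_co.H88
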