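import Pool.Agent.MP_6bef34_co.H28.Pay
import Pool.Agent.MP_6bef34_co.H7.K2
import Pool.Agent.MP_6bef34_co.H50.Lcd
import Pool.Agent.MP_6bef34_co.H7.Arr

/-! Every good state of the contour walk has a good successor. -/

namespace Pool.Agent.MP_6bef34_co.H88

open Finset
open Pool.Agent.MP_6bef34_co.H7 (Site d Wall Box need)
open Pool.Agent.MP_6bef34_co.H28

variable {Lo : Pt → Finset Pt → Prop} {N : ℤ} {s t : St Nd} {b : Site} {i : ZMod 6} {p c : Nd}

theorem left_eq (b : Site) (i : ZMod 6) : b + d (i + 1) + d (i + 5) = b + d i := by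
  rw [add_assoc, (by decide : ∀ i : ZMod 6, d (i + 1) + d (i + 5) = d i) i]

theorem next_ne (b : Site) (i : ZMod 6) : b + d (i + 2) ≠ b + d (i + 1) := fun e =>
  (by decide : ∀ i : ZMod 6, i + 2 ≠ i + 1) i (H7.add_d_inj e)

theorem corner_wall (h : Inv (par Lo N) s) (he : s.e = (b, i)) :
    Wall s.De (b + d (i + 1) + d (i + 5)) := (left_eq b i).symm ▸ head_wall h he

theorem arrive (G : Gm Lo N) (h : Inv (par Lo N) s) (he : s.e = (b, i)) (ha : ARR s b i) :
    Nx Lo N s := by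
  by_cases hv : b + d (i + 1) ∈ s.V
  · exact arr_virt G h he hv (by rcases ha.2 with a | a <;> omega)
  · exact arr_real h he ha hv

/-- the state after the absorption of the corner and the turn -/
theorem at_next (A : AT Lo N s t b i) (hv : b ∉ s.V) (hw : ¬ Wall s.De (b + d (i + 2)))
    (hg : -1 ≤ t.g)
    (hc : s.U (b + d (i + 2)) → 2 ≤ fl t b ∨ (0 ≤ fl t b ∧ (¬ s.U (b + d (i + 3)) ∨
      (1 ≤ fl t b ∧ (¬ s.U (b + d (i + 4)) ∨ (node s b).nB b ≤ 2)) ∨
      (t.c (b + d (i + 1)) + (node s b).nB b ≤ 5 ∧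
        (((node s b).nB b ≤ 2 ∧ ¬ s.U (b + d (i + 4))) ∨
          ((node s b).nB b ≤ 1 ∧ NCok t b (i + 1))))))) : Nx Lo N s := by
  by_cases hr : b + d (i + 2) ∈ s.R
  · exact (good_arr A.inv A.e ⟨by rwa [H50.ix11, A.R], Or.inl hg⟩).wk.nx A.mu
  refine (post3 A.inv A.e (A.V ▸ hv) ⟨A.e3, ?_⟩).nx A.mu
  refine (hc ⟨hw, hr⟩).imp id fun a => ⟨?_, a.1, ?_⟩
  · rw [H50.ix11, A.wall]
    exact fun e => e.elim (next_ne b i) hw
  have col : t.c (b + d (i + 1)) + (node s b).nB b ≤ 5 → ColOK t b (i + 1) :=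
    fun e _ _ u k => by
      rw [A.fresh u k, A.node]
      exact e
  rw [H50.ix12, H50.ix13, A.node, A.U, A.U]
  rcases a.2 with e | e | ⟨e, f | f⟩
  · exact Or.inl fun u => e u.2
  · exact Or.inr (Or.inl ⟨e.1, e.2.imp (fun f u => f u.2) id⟩)
  · exact Or.inr (Or.inr (Or.inl ⟨f.1, fun u => f.2 u.2, col e⟩))
  · exact Or.inr (Or.inr (Or.inr (Or.inr ⟨f.1, col e, f.2⟩)))

/-- the corner is landed on, paid in full, or a blocked tip with three tokens -/
theorem test (G : Gm Lo N) (h : Inv (par Lo N) s) (he : s.e = (b, i)) (hv : b ∉ s.V)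
    (hg : 0 ≤ s.g) (hx : s.U (b + d (i + 1))) (hw : ¬ Wall s.De (b + d (i + 2)))
    (hr : RcOK s b i)
    (hA : s.g = 0 → ¬ s.U (b + d (i + 2)) ∨ (node s b).nB b ≤ 2 ∨ 2 ≤ fl s b) :
    Nx Lo N s ∨
    (∃ t, AT Lo N s t b i ∧ s.g ≤ t.g ∧ ((¬ K0 s.De (b + d (i + 1)) ∧ t.c (b + d (i + 1)) ≤ 3) ∨
      (K0 s.De (b + d (i + 1)) ∧ (node s b).Blk (b + d (i + 1)) ∧ t.c (b + d (i + 1)) ≤ 4))) ∨
    (K0 s.De (b + d (i + 1)) ∧ (node s b).Blk (b + d (i + 1)) ∧ s.z (b + d (i + 1)) ≤ 3 ∧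
      ∃ t, AT Lo N s t b i ∧ s.g - 1 ≤ t.g ∧ t.c (b + d (i + 1)) = 3) := by
  have ok := node_ok h (head_R h he) hv
  have hB := box1 (Lo := Lo) (box_real G h (head_R h he) hv) (i + 1)
  obtain ⟨p1, p2, p3⟩ := price h hx (corner_wall h he)
  have c1 := h.cz (b + d (i + 1))
  have c2 := h.u2 _ hx
  by_cases h1 : K1 s.De (b + d (i + 1))
  swap
  · obtain ⟨t, A, a1, -, a2⟩ := at_own h he hx hB _ le_rfl c1 (by omega)
    have := p3 h1
    exact Or.inr (Or.inl ⟨t, A, by omega, Or.inl ⟨fun k => h1 k.k1, by omega⟩⟩)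
  have c3 := h.u1 _ hx h1
  by_cases hb : (node s b).Blk (b + d (i + 1))
  swap
  · by_cases hf : s.c (b + d (i + 1)) = 0 ∨ 1 ≤ fl s (b + d (i + 1))
    · exact Or.inl (land_any G h he rfl hx h1 hr ok.1 rfl (ok.2.adj _) hb hg hf)
    · simp only [fl] at hf
      exact Or.inl (lcd G h he hv hg hx h1 (by omega) (by omega) hw hr (hA (by omega)))
  have h3 : 3 ≤ s.z (b + d (i + 1)) := hb.three ok.1.2
  by_cases h0 : K0 s.De (b + d (i + 1))
  swap
  · obtain ⟨t, A, a1, -, a2⟩ := at_own h he hx hB 3 (by omega) h3 (by omega)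
    have := p2 h0
    exact Or.inr (Or.inl ⟨t, A, by omega, Or.inl ⟨h0, by omega⟩⟩)
  by_cases h4 : 4 ≤ s.z (b + d (i + 1))
  · obtain ⟨t, A, a1, -, a2⟩ := at_own h he hx hB 4 (by omega) h4 (by omega)
    exact Or.inr (Or.inl ⟨t, A, by omega, Or.inr ⟨h0, hb, by omega⟩⟩)
  · obtain ⟨t, A, a1, -, a2⟩ := at_own h he hx hB 3 (by omega) h3 (by omega)
    exact Or.inr (Or.inr ⟨h0, hb, by omega, t, A, by omega, a1⟩)

/-- a blocked tip that was paid in full -/
theorem at_cont (A : AT Lo N s t b i) (hv : b ∉ s.V) (hg : 0 ≤ t.g)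
    (hw : ¬ Wall s.De (b + d (i + 2))) (hH : (node s b).nB b ≤ 2)
    (hc : t.c (b + d (i + 1)) = 3) (hb : (node s b).Blk (b + d (i + 1)))
    (hz : s.z (b + d (i + 1)) ≤ 3) (hC : Cont s b i) : Nx Lo N s := by
  refine (cont_post A.inv A.e A.O (A.V ▸ hv) (hg.trans (fl_ge A.inv b)) ?_ (by rwa [A.node])
    hc.le A.fresh (by rwa [A.node]) (by rwa [A.z]) ?_).nx A.mu
  · rw [A.wall]
    exact fun e => e.elim (next_ne b i) hw
  · rw [Cont, A.node, A.U, A.U]
    exact hC.imp (fun a => ⟨fun u => a.1 u.2, fun u => a.2 u.2⟩)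
      fun a => ⟨a.1, a.2.imp (fun e u => e u.2) id⟩

/-- the pass through a free gate when no token lies behind the corner -/
theorem pass0 (G : Gm Lo N) (h : Inv (par Lo N) s) (he : s.e = (b, i)) (hv : b ∉ s.V)
    (hg : 0 ≤ s.g) (hx : s.U (b + d (i + 1))) (h0 : K0 s.De (b + d (i + 1)))
    (h3 : 3 ≤ s.z (b + d (i + 1))) (hH : (node s b).nB b ≤ 2) (hr : RcOK s b i)
    (ho : s.U (b + d (i + 1) + d i)) (h1 : K1 s.De (b + d (i + 1) + d i))
    (hz : s.z (b + d (i + 1) + d i) = 0) (hG : (node s b).Gate b i) : Nx Lo N s := by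
  have ok := node_ok h (head_R h he) hv
  obtain ⟨c, a1, a2, a3, a4⟩ := pass_game G ok.1 ok.2 hG hz
  have := h.cz (b + d (i + 1) + d i)
  exact passTo G h he hv hx (h.u0 _ hx h0) h3 ho h1 hr (m := 0) (by omega) (Or.inl hH)
    (Or.inl rfl) rfl a1 a2 a3 a4 (by omega) (Or.inl (by omega))

theorem lack0 (G : Gm Lo N) (h : Inv (par Lo N) s) (he : s.e = (b, i)) (hv : b ∉ s.V)
    (hg : 0 ≤ s.g) (hx : s.U (b + d (i + 1))) (h0 : K0 s.De (b + d (i + 1)))
    (hb : (node s b).Blk (b + d (i + 1))) (hz : s.z (b + d (i + 1)) ≤ 3)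
    (hw : ¬ Wall s.De (b + d (i + 2))) (hH : (node s b).nB b ≤ 2) (hr : RcOK s b i)
    (hcol : ColOK s b i) (hC : Cont s b i)
    (hN : (node s b).NC3 (b + d (i + 1)) → s.U (b + d (i + 2)) →
      K0 (insert (b + d (i + 1)) s.De) (b + d (i + 2)) → s.U (b + d (i + 1) + d i) →
      K1 s.De (b + d (i + 1) + d i) → s.z (b + d i) ≤ s.c (b + d i) →
      s.z (b + d (i + 1) + d i) ≤ s.c (b + d (i + 1) + d i) → Nx Lo N s) : Nx Lo N s := by
  have ok := node_ok h (head_R h he) hv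
  have bx := box_real G h (head_R h he) hv
  have hB := box1 (Lo := Lo) bx (i + 1)
  have h3 : 3 ≤ s.z (b + d (i + 1)) := hb.three ok.1.2
  have c0 := h.u0 _ hx h0
  have ne : ∀ i : ZMod 6, i ≠ i + 5 := by decide
  by_cases r2 : b + d (i + 2) ∈ s.R
  · exact lackR G h he hv hx h3 r2 hg
  have h2 : s.U (b + d (i + 2)) := ⟨hw, r2⟩
  by_cases k2' : K0 (insert (b + d (i + 1)) s.De) (b + d (i + 2))
  swap
  · exact lackG G h he hv hx h0 h3 h2 k2' hg
  rcases s.dec (b + d (i + 1) + d i) with ho | ho | ho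
  · exact absurd (h0 _ _ ho (corner_wall h he)) (ne i)
  · exact passR G h he hv hx c0 h3 ho hr (m := 0) (by omega) (Or.inl hH) (Or.inl rfl) (by omega)
  by_cases h1 : K1 s.De (b + d (i + 1) + d i)
  swap
  · have h' := h.absorb ho (box2 bx _ _)
    have g' := h.g_absorb ho
    have n' := need_le_of_not_k1 h1
    have hx' : (s.absorb (b + d (i + 1) + d i)).U (b + d (i + 1)) :=
      St.U_absorb.2 ⟨(H7.add_d_ne _ _).symm, hx⟩
    have w' := corner_wall h' he
    have p' := (price h' hx' w').2.1 fun k => ne i (k _ _ (H7.wall_insert.2 (Or.inl rfl)) w')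
    obtain ⟨t, A, a1, -, a2⟩ := at_own h' he hx' hB 3 (by rw [St.absorb_c]; omega) h3 (by omega)
    refine (at_cont A hv (by omega) ?_ hH a1 hb hz ?_).of_le (by rw [St.mu_absorb ho]; omega)
    · rw [St.absorb_De, H7.wall_insert]
      refine fun e => e.elim (fun e => ?_) hw
      rw [add_assoc] at e
      exact (by decide : ∀ i : ZMod 6, d (i + 2) ≠ d (i + 1) + d i) i (add_left_cancel e)
    · rw [Cont, St.U_absorb, St.U_absorb]
      exact hC.imp (fun a => ⟨fun u => a.1 u.2, fun u => a.2 u.2⟩)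
        fun a => ⟨a.1, a.2.imp (fun e u => e u.2) id⟩
  by_cases za : s.c (b + d i) < s.z (b + d i)
  · obtain ⟨t, A, a1, a2⟩ := at_left h he hx hB h3 za
    exact at_cont A hv (by omega) hw hH a1 hb hz hC
  by_cases zo : s.c (b + d (i + 1) + d i) < s.z (b + d (i + 1) + d i)
  · obtain ⟨t, A, a1, a2⟩ := at_borrow h he hx hB h3 ho h1 zo
    exact at_cont A hv (by omega) hw hH a1 hb hz hC
  by_cases hc : Col (node s b).Q (b + d (i + 1))
  swap
  · exact hN ⟨hb, hz, hc⟩ h2 k2' ho h1 (by omega) (by omega)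
  have e1 := hcol h0 hx ho h1
  have hG := column_game ok.1.2 ⟨hb, hz, hc⟩ (by rw [node_cnt, node_cnt]; omega)
  have e2 := h.u1 _ ho h1
  by_cases z0 : s.z (b + d (i + 1) + d i) = 0
  · exact pass0 G h he hv hg hx h0 h3 hH hr ho h1 z0 hG
  · exact k2 G h he hv hg hx h0 ⟨hb, hz, hc⟩ hw ho h1 (by omega) (by omega) hG hH hr hC

theorem turn_e (he : s.e = (b, i)) : s.turn.e = (b, i + 1) := by rw [St.turn_e, he]

theorem next_c3 (G : Gm Lo N) (h : Inv (par Lo N) s) (he : s.e = (b, i)) (hv : b ∉ s.V)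
    (hc : C3 s b i s.g) : Nx Lo N s := by
  obtain ⟨h4, hc⟩ := hc
  have hg : 0 ≤ s.g := by
    rcases hc with a | a
    · omega
    · exact a.2.1
  rcases s.dec (b + d (i + 1)) with hx | hx | hx
  · have g2 := hc.resolve_right fun a => a.1 hx
    obtain ⟨a1, a2, a3⟩ := h.turn (by rw [he]; exact hx) (Or.inr (by omega))
    refine (good_c3 a1 (turn_e he) hv ⟨?_, Or.inl (by omega)⟩).wk.nx (by omega)
    rw [H50.ix14]
    exact h.back_dec (head_mem he)
  · exact arrive G h he ⟨hx, Or.inl (by omega)⟩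
  by_cases hw : Wall s.De (b + d (i + 2))
  · exact gain G h he hv hx hw (by omega)
  have hr : RcOK s b i := fun _ _ _ u => absurd u h4
  rcases test G h he hv hg hx hw hr (fun g0 => by
      rcases hc with a | ⟨-, -, a | a | a | a | a⟩
      · omega
      · exact Or.inl a
      · omega
      · exact Or.inr (Or.inl a.1)
      · exact Or.inr (Or.inl a.1)
      · exact Or.inr (Or.inl (by omega))) with a | ⟨t, A, a1, a2⟩ | ⟨h0, hb, hz, t, A, a1, a2⟩
  · exact a
  · have f := fl_ge A.inv b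
    refine at_next A hv hw (by omega) fun h2 => ?_
    rcases hc with a | ⟨-, -, a | a | a | a | a⟩
    · exact Or.inl (by omega)
    · exact absurd h2 a
    · exact Or.inr ⟨by omega, Or.inr (Or.inl ⟨by omega, Or.inl h4⟩)⟩
    · exact Or.inr ⟨by omega, Or.inl a.2.1⟩
    · have := (a2.resolve_right fun e => a.2 e.1).2
      exact Or.inr ⟨by omega, Or.inr (Or.inr ⟨by omega, Or.inl ⟨a.1, h4⟩⟩)⟩
    · exact Or.inr ⟨by omega, Or.inr (Or.inr ⟨by omega, Or.inl ⟨by omega, h4⟩⟩)⟩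
  have f := fl_ge A.inv b
  have ok := node_ok h (head_R h he) hv
  have h3 : 3 ≤ s.z (b + d (i + 1)) := hb.three ok.1.2
  rcases hc with a | ⟨-, -, a | ⟨a, e | e⟩ | a | a | a⟩
  · exact at_next A hv hw (by omega) fun _ =>
      Or.inr ⟨by omega, Or.inr (Or.inl ⟨by omega, Or.inl h4⟩)⟩
  · exact at_next A hv hw (by omega) fun h2 => absurd h2 a
  · exact at_next A hv hw (by omega) fun _ => Or.inr ⟨by omega, Or.inl e⟩
  · exact at_next A hv hw (by omega) fun _ =>
      Or.inr ⟨by omega, Or.inr (Or.inr ⟨by omega, Or.inl ⟨e, h4⟩⟩)⟩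
  · refine lack0 G h he hv hg hx h0 hb hz hw a.1 hr a.2.2 (Or.inl ⟨a.2.1, h4⟩)
      fun n h2 k _ _ _ _ => ?_
    by_cases b2 : (node s b).Blk (b + d (i + 2))
    swap
    · exact retest G h he hv hg hx h0 n h2 k b2 hr (Or.inl a.2.1)
    rcases s.dec (b + d (i + 3)) with w | w | w
    · refine absurd (k i (i + 4) (H7.wall_insert.2 (Or.inl (back_d b i)))
        (H7.wall_insert.2 (Or.inr ?_))) ((by decide : ∀ i : ZMod 6, i ≠ i + 4) i)
      rwa [add_assoc, (by decide : ∀ i : ZMod 6, d (i + 2) + d (i + 4) = d (i + 3)) i]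
    · exact debt2 G h he hv hx h3 h2 (b2.three ok.1.2) w hg
    · exact absurd w a.2.1
  · exact absurd h0 a.2
  · refine lack0 G h he hv hg hx h0 hb hz hw (by omega) hr a.2.1 (Or.inr ⟨a.1, Or.inl h4⟩)
      fun n _ _ ho h1 za zo => ?_
    obtain ⟨e1, e2⟩ := a.2.2 h0 n ho h1 za zo
    exact pass0 G h he hv hg hx h0 h3 (by omega) hr ho h1 e1 e2

theorem next_c4 (G : Gm Lo N) (h : Inv (par Lo N) s) (he : s.e = (b, i)) (hv : b ∉ s.V)
    (hg : 0 ≤ s.g) (hc : C4 s b i) : Nx Lo N s := by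
  obtain ⟨hx, cb, hc⟩ := hc
  by_cases hr : b + d (i + 1) ∈ s.R
  · exact arrive G h he ⟨hr, Or.inl (by omega)⟩
  replace hx : s.U (b + d (i + 1)) := ⟨hx, hr⟩
  by_cases hw : Wall s.De (b + d (i + 2))
  · exact gain G h he hv hx hw (by omega)
  have hr : RcOK s b i := fun _ _ _ _ => cb
  have ok := node_ok h (head_R h he) hv
  have nb : (node s b).nB b ≤ s.z b := Nd.nB_le_cnt ok.1.2 b
  have nc : ∀ t, AT Lo N s t b i → ¬ (node s b).NC3 (b + d (i + 2)) → NCok t b (i + 1) :=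
    fun t A n _ n' => by
      rw [A.node, H50.ix11] at n'
      exact absurd n' n
  rcases test G h he hv hg hx hw hr (fun _ => by
      rcases hc with a | a | a | a
      · exact Or.inr (Or.inr (by omega))
      · exact Or.inr (Or.inl a.2)
      · exact Or.inr (Or.inl (a.2.2.1.trans one_le_two))
      · exact Or.inr (Or.inl (by omega))) with a | ⟨t, A, a1, a2⟩ | ⟨h0, hb, hz, t, A, a1, a2⟩
  · exact a
  · have f := A.fl
    have f' := fl_ge A.inv b
    refine at_next A hv hw (by omega) fun h2 => ?_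
    rcases hc with a | a | a | ⟨a, -, l⟩
    · exact Or.inl (by omega)
    · exact Or.inl (by omega)
    · exact Or.inr ⟨by omega, Or.inr (Or.inl ⟨by omega, Or.inr (a.2.2.1.trans one_le_two)⟩)⟩
    refine Or.inr ⟨by omega, Or.inr (Or.inr ⟨by omega, Or.inr ⟨by omega, nc t A ?_⟩⟩)⟩
    rcases a2 with e | e
    · exact l.1 e.1
    rcases l.2 e.1 with m | m
    · exact m.2.resolve_left (not_not.2 e.2.1)
    · exact fun n => m.1 n.1
  have f := A.fl
  have h3 : 3 ≤ s.z (b + d (i + 1)) := hb.three ok.1.2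
  rcases hc with a | a | ⟨a, h1⟩ | ⟨a, hcol, l⟩
  · exact at_next A hv hw (by omega) fun _ => Or.inl (by omega)
  · exact at_next A hv hw (by omega) fun _ =>
      Or.inr ⟨by omega, Or.inr (Or.inl ⟨by omega, Or.inr a.2⟩)⟩
  · have n1 := h1.2.1
    by_cases X : s.U (b + d (i + 2)) ∧ (node s b).NC3 (b + d (i + 1)) ∧
        K0 (insert (b + d (i + 1)) s.De) (b + d (i + 2)) ∧ (node s b).NC3 (b + d (i + 2)) ∧
        s.z (b + d (i + 2) + d (i + 1)) = 0 ∧ ¬ (node s b).Gate b (i + 1)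
    · exact xrule G h he hv hg a hr hx h0 X.2.1 X.1 X.2.2.1 X.2.2.2.1 X.2.2.2.2.1 X.2.2.2.2.2 h1
    refine at_next A hv hw (by omega) fun h2 =>
      Or.inr ⟨by omega, Or.inr (Or.inr ⟨by omega, Or.inr ⟨n1, fun k n u k1 _ zo => ?_⟩⟩)⟩
    rw [A.fresh u k1] at zo
    refine ⟨by omega, ?_⟩
    rw [A.z] at zo
    rw [A.node] at n ⊢
    by_cases hc : Col (node s b).Q (b + d (i + 1))
    · exact pair_game ok.1.2 ⟨hb, hz, hc⟩ n (by omega) (by rw [node_cnt]; omega)
    · rw [A.De] at k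
      rw [H50.ix11] at k n zo
      by_contra hG
      exact X ⟨h2, ⟨hb, hz, hc⟩, k, n, by omega, hG⟩
  rcases l.2 h0 with m | m
  · exact lack0 G h he hv hg hx h0 hb hz hw (by omega) hr hcol
      (Or.inr ⟨by omega, Or.inr (Or.inr (m.2.resolve_left (not_not.2 hb)))⟩)
      fun n => absurd n m.1
  · exact lack0 G h he hv hg hx h0 hb hz hw (by omega) hr hcol
      (Or.inr ⟨by omega, Or.inr (Or.inr fun n => m.1 n.1)⟩)
      fun _ h2 k _ _ _ _ => heavy G h he hv hg hx h0 h3 h2 k m.1 m.2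

theorem next_rv (G : Gm Lo N) (h : Inv (par Lo N) s) (he : s.e = (b, i)) (hv : b ∉ s.V)
    (hg : 0 ≤ s.g) (hc : RV s b i) : Nx Lo N s := by
  rcases s.dec (b + d (i + 1)) with hx | hx | hx
  · obtain ⟨a1, a2, a3⟩ := h.turn (by rw [he]; exact hx) (Or.inr (by omega))
    refine (good_rv a1 (turn_e he) hv (by omega) ?_).wk.nx (by omega)
    have n := a1.geo.new
    rw [turn_e he, St.turn_O] at n
    rw [RV, H50.ix11, H50.ix12, St.turn_O]
    rcases hc with a | a | a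
    · exact absurd (mem_insert_of_mem a) n
    · exact Or.inl (mem_insert_of_mem a)
    · exact Or.inr (Or.inl (mem_insert_of_mem a))
  · exact arrive G h he ⟨hx, Or.inl (by omega)⟩
  rcases hc with a | a | a
  · exact absurd (h.wall_of (mem_insert_of_mem a)) hx.1
  · exact absurd hx (H50.ix25 i ▸ h.back_dec (mem_insert_of_mem a))
  · exact next_c3 G h he hv ⟨H50.ix31 i ▸ h.corner_dec a,
      Or.inr ⟨hx.1, hg, Or.inl (H50.ix35 i ▸ h.back_dec (mem_insert_of_mem a))⟩⟩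

theorem next (G : Gm Lo N) (h : Good Lo N s) : Nx Lo N s := by
  obtain ⟨h, a | ⟨hv, hg, a | a | a⟩⟩ := h
  · exact arrive G h rfl a
  · exact next_rv G h rfl hv hg a
  · exact next_c3 G h rfl hv a
  · exact next_c4 G h rfl hv hg a

end Pool.Agent.MP_6bef34_co.H88
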