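import Pool.Agent.MP_6bef34_co.H7.Game

/-! Lines through a site, counted level by level. -/

namespace Pool.Agent.MP_6bef34_co.H92

open Finset Pool.Agent.MP_6bef34_co.H7

variable {Q Q' : Finset Pt} {k r r' : Pt} {new : Multiset Site} {s b : Site} {i : ZMod 6}
  {j : Fin 3} {u v : ℤ}

/-- the rook has its line `j` through `s` on level `v` -/
def ol (r : Pt) (s : Site) (j : Fin 3) (v : ℤ) : ℕ := if r 3 = v ∧ site r j = s then 1 else 0

/-- number of rooks with line `j` through `s` on level `v` -/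
def ad (Q : Finset Pt) (s : Site) (j : Fin 3) (v : ℤ) : ℕ := ∑ r ∈ Q, ol r s j v

/-- number of lines through `s` on level `v` -/
def an (Q : Finset Pt) (s : Site) (v : ℤ) : ℕ := ∑ r ∈ Q, if r 3 = v then one r s else 0

theorem an_eq0 (Q : Finset Pt) (s : Site) (v : ℤ) :
    an Q s v = ad Q s 0 v + ad Q s 1 v + ad Q s 2 v := by
  simp only [an, ad, ← sum_add_distrib]
  refine sum_congr rfl fun r _ => ?_
  by_cases h : r 3 = v
  · simp only [h, ol, one, true_and, if_true]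
  · simp only [h, ol, false_and, if_false]

theorem an_eq (Q : Finset Pt) (s : Site) (i : ZMod 6) (v : ℤ) :
    an Q s v = ad Q s (dr i) v + ad Q s (dr (i + 1)) v + ad Q s (dr (i + 2)) v := by
  rw [an_eq0]
  rcases table i with a | a | a | a | a | a <;> simp only [a] <;> omega

theorem ad_le_an (Q : Finset Pt) (s : Site) (j : Fin 3) (v : ℤ) : ad Q s j v ≤ an Q s v := by
  rw [an_eq0]
  rcases three_cases j with rfl | rfl | rfl <;> omega

theorem sum_an_le (Q : Finset Pt) (s : Site) (V : Finset ℤ) : ∑ v ∈ V, an Q s v ≤ cnt Q s := by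
  simp only [an, cnt_eq]
  rw [sum_comm]
  refine sum_le_sum fun r _ => ?_
  rw [sum_ite_eq]
  split_ifs <;> omega

theorem an1 (Q : Finset Pt) (s : Site) (v : ℤ) : an Q s v ≤ cnt Q s := by
  simpa using sum_an_le Q s {v}

theorem an2 (Q : Finset Pt) (s : Site) {v1 v2 : ℤ} (h : v1 ≠ v2) :
    an Q s v1 + an Q s v2 ≤ cnt Q s := by
  have := sum_an_le Q s {v1, v2}
  rwa [sum_pair h] at this

theorem an3 (Q : Finset Pt) (s : Site) {v1 v2 v3 : ℤ} (h : v1 ≠ v2 ∧ v1 ≠ v3 ∧ v2 ≠ v3) :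
    an Q s v1 + an Q s v2 + an Q s v3 ≤ cnt Q s := by
  have := sum_an_le Q s {v1, v2, v3}
  rw [sum_insert (by simp; omega), sum_pair h.2.2] at this
  omega

theorem an4 (Q : Finset Pt) (s : Site) {v1 v2 v3 v4 : ℤ}
    (h : v1 ≠ v2 ∧ v1 ≠ v3 ∧ v1 ≠ v4 ∧ v2 ≠ v3 ∧ v2 ≠ v4 ∧ v3 ≠ v4) :
    an Q s v1 + an Q s v2 + an Q s v3 + an Q s v4 ≤ cnt Q s := by
  have := sum_an_le Q s {v1, v2, v3, v4}
  rw [sum_insert (by simp; omega), sum_insert (by simp; omega), sum_pair h.2.2.2.2.2] at this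
  omega

theorem an5 (Q : Finset Pt) (s : Site) {v1 v2 v3 v4 v5 : ℤ}
    (h : v1 ≠ v2 ∧ v1 ≠ v3 ∧ v1 ≠ v4 ∧ v1 ≠ v5 ∧ v2 ≠ v3 ∧ v2 ≠ v4 ∧ v2 ≠ v5 ∧ v3 ≠ v4 ∧ v3 ≠ v5 ∧
      v4 ≠ v5) :
    an Q s v1 + an Q s v2 + an Q s v3 + an Q s v4 + an Q s v5 ≤ cnt Q s := by
  have := sum_an_le Q s {v1, v2, v3, v4, v5}
  rw [sum_insert (by simp; omega), sum_insert (by simp; omega), sum_insert (by simp; omega),
    sum_pair h.2.2.2.2.2.2.2.2.2] at this
  omega

theorem ad_pos (h : r ∈ Q) (hs : site r j = s) : 1 ≤ ad Q s j (r 3) := by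
  have := single_le_sum (f := fun t => ol t s j (r 3)) (fun _ _ => Nat.zero_le _) h
  simpa [ol, hs, ad] using this

theorem an_pos (h : r ∈ Q) (hs : site r j = s) : 1 ≤ an Q s (r 3) :=
  (ad_pos h hs).trans (ad_le_an _ _ _ _)

theorem ad_two {t : Pt} (h : r ∈ Q) (ht : t ∈ Q) (hne : r ≠ t) (hs : site r j = s)
    (hs' : site t j = s) (hl : t 3 = r 3) : 2 ≤ ad Q s j (r 3) := by
  have := sum_le_sum_of_subset (f := fun t => ol t s j (r 3))
    (show ({r, t} : Finset Pt) ⊆ Q by simp [insert_subset_iff, h, ht])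
  rw [sum_pair hne] at this
  simpa [ol, hs, hs', hl, ad] using this

theorem ad_ex (h : 1 ≤ ad Q s j v) : ∃ r ∈ Q, r 3 = v ∧ site r j = s := by
  by_contra hc
  push Not at hc
  have : ad Q s j v = 0 := sum_eq_zero fun r hr => if_neg fun a => hc r hr a.1 a.2
  omega

theorem an_ex (h : 1 ≤ an Q s v) : ∃ r ∈ Q, r 3 = v ∧ ∃ j, site r j = s := by
  rw [an_eq0] at h
  by_cases a : 1 ≤ ad Q s 0 v
  · obtain ⟨r, a1, a2, a3⟩ := ad_ex a
    exact ⟨r, a1, a2, _, a3⟩
  by_cases a' : 1 ≤ ad Q s 1 v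
  · obtain ⟨r, a1, a2, a3⟩ := ad_ex a'
    exact ⟨r, a1, a2, _, a3⟩
  obtain ⟨r, a1, a2, a3⟩ := ad_ex (show 1 ≤ ad Q s 2 v by omega)
  exact ⟨r, a1, a2, _, a3⟩

theorem col_up (s : Site) (u : ℤ) : Col (up s u) s := rfl

theorem colT_tri (b : Site) (i : ZMod 6) (u : ℤ) : ColT (tri b i u) b i := rfl

theorem ad_up (h : up s u ∈ Q) (j : Fin 3) : 1 ≤ ad Q s j u :=
  ad_pos h (col_iff.1 (col_up s u) j)

theorem an_up (h : up s u ∈ Q) : 3 ≤ an Q s u := by
  have a := ad_up h 0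
  have b := ad_up h 1
  have c := ad_up h 2
  rw [an_eq0]
  omega

theorem ad_tri (h : tri b i u ∈ Q) : 1 ≤ ad Q b (dr i) u ∧ 1 ≤ ad Q (b + d i) (dr (i + 2)) u ∧
    1 ≤ ad Q (b + d (i + 1)) (dr (i + 1)) u :=
  have a := colT_iff.1 (colT_tri b i u)
  ⟨ad_pos h a.1, ad_pos h a.2.1, ad_pos h a.2.2⟩

/-- a square above a site that is not safe -/
theorem not_safe_up (h : ¬ Safe Q (up s v)) :
    (∃ u, u ≠ v ∧ up s u ∈ Q) ∨ (up s v ∉ Q ∧ 1 ≤ an Q s v) ∨ (up s v ∈ Q ∧ 4 ≤ an Q s v) := by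
  simp only [Safe, not_forall, not_not] at h
  obtain ⟨r, hr, h⟩ := h
  rcases ham1_up.1 h with ⟨a, b, j, c⟩ | ⟨a, b⟩
  · subst a
    by_cases e : up s (r 3) ∈ Q
    · refine Or.inr (Or.inr ⟨e, ?_⟩)
      have e1 := ad_two hr e b c (col_iff.1 (col_up s _) j) rfl
      have a0 := ad_up e 0
      have a1 := ad_up e 1
      have a2 := ad_up e 2
      rw [an_eq0]
      rcases three_cases j with rfl | rfl | rfl <;> omega
    · exact Or.inr (Or.inl ⟨e, an_pos hr c⟩)
  · exact Or.inl ⟨r 3, b, a ▸ hr⟩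

/-- a square above a triangle that is not safe -/
theorem not_safe_tri (h : ¬ Safe Q (tri b i v)) :
    (∃ u, u ≠ v ∧ tri b i u ∈ Q) ∨
    (tri b i v ∉ Q ∧ 1 ≤ ad Q b (dr i) v + ad Q (b + d i) (dr (i + 2)) v +
      ad Q (b + d (i + 1)) (dr (i + 1)) v) ∨
    (tri b i v ∈ Q ∧ 4 ≤ ad Q b (dr i) v + ad Q (b + d i) (dr (i + 2)) v +
      ad Q (b + d (i + 1)) (dr (i + 1)) v) := by
  simp only [Safe, not_forall, not_not] at h
  obtain ⟨r, hr, h⟩ := h
  rcases ham1_tri.1 h with ⟨a, e0, c⟩ | ⟨a, e0⟩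
  · subst a
    by_cases e : tri b i (r 3) ∈ Q
    · refine Or.inr (Or.inr ⟨e, ?_⟩)
      have a := colT_iff.1 (colT_tri b i (r 3))
      have a' := ad_tri e
      rcases c with c | c | c
      · have := ad_two hr e e0 c a.1 rfl
        omega
      · have := ad_two hr e e0 c a.2.1 rfl
        omega
      · have := ad_two hr e e0 c a.2.2 rfl
        omega
    · refine Or.inr (Or.inl ⟨e, ?_⟩)
      rcases c with c | c | c <;> have := ad_pos hr c <;> omega
  · exact Or.inl ⟨r 3, e0, a ▸ hr⟩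

theorem Safe.an_up (h : Safe Q (up s v)) : (∀ u, u ≠ v → up s u ∉ Q) ∧
    ((up s v ∉ Q ∧ an Q s v = 0) ∨ (up s v ∈ Q ∧ an (Q.erase (up s v)) s v = 0)) := by
  have key : an (Q.erase (up s v)) s v = 0 := by
    by_contra hc
    obtain ⟨r, a1, a2, j, a3⟩ := an_ex (Nat.one_le_iff_ne_zero.2 hc)
    refine h r (mem_of_mem_erase a1) (ham1_up.2 (Or.inl ⟨a2, fun c => (mem_erase.1 a1).1 ?_, j, a3⟩))
    rw [c, a2]
  refine ⟨fun u hu a => h _ a (ham1_up.2 (Or.inr ⟨col_up s u, hu⟩)), ?_⟩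
  by_cases e : up s v ∈ Q
  · exact Or.inr ⟨e, key⟩
  · exact Or.inl ⟨e, by rwa [erase_eq_of_notMem e] at key⟩

theorem ad_erase (h : r ∈ Q) (s : Site) (j : Fin 3) (v : ℤ) :
    ad Q s j v = ol r s j v + ad (Q.erase r) s j v := (add_sum_erase Q _ h).symm

theorem an_erase (h : r ∈ Q) (s : Site) (v : ℤ) :
    an Q s v = (if r 3 = v then one r s else 0) + an (Q.erase r) s v := (add_sum_erase Q _ h).symm

theorem ad_erase_le (Q : Finset Pt) (k : Pt) (s : Site) (j : Fin 3) (v : ℤ) :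
    ad (Q.erase k) s j v ≤ ad Q s j v := sum_le_sum_of_subset (erase_subset _ _)

theorem an_erase_le (Q : Finset Pt) (k : Pt) (s : Site) (v : ℤ) :
    an (Q.erase k) s v ≤ an Q s v := sum_le_sum_of_subset (erase_subset _ _)

theorem ad_reply (h : Reply Q k r r' Q' new) (s : Site) (j : Fin 3) (v : ℤ) :
    ad Q' s j v + ol r s j v = ad (Q.erase k) s j v + ol r' s j v := by
  rw [ad_erase (mem_erase.2 ⟨h.ne, h.mem⟩), h.eq, ad,
    sum_insert fun a => h.nmem (mem_of_mem_erase a), ← ad]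
  omega

theorem an_reply (h : Reply Q k r r' Q' new) (s : Site) (v : ℤ) :
    an Q' s v + (if r 3 = v then one r s else 0) =
      an (Q.erase k) s v + (if r' 3 = v then one r' s else 0) := by
  rw [an_erase (mem_erase.2 ⟨h.ne, h.mem⟩), h.eq, an,
    sum_insert fun a => h.nmem (mem_of_mem_erase a), ← an]
  omega

theorem one_wmove (h : WMove r r') (s : Site) : one r' s = one r s := by simp only [one, h.2]

theorem fresh_le (r' : Pt) (j : Fin 3) (s : Site) : (fresh r' j).count s ≤ 2 := by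
  have := Multiset.count_le_card s (fresh r' j)
  simpa [fresh] using this

theorem fresh_col (h : Col r' s) (j : Fin 3) : (fresh r' j).count s = 2 := by
  have a := one_fresh r' j s
  rw [one_col h, if_pos (col_iff.1 h j)] at a
  omega

theorem fresh_le_one (h : ¬ Col r' s) (j : Fin 3) : (fresh r' j).count s ≤ 1 := by
  have a := one_fresh r' j s
  have := one_le h
  omega

theorem fresh_ex (h : 1 ≤ (fresh r' j).count s) : ∃ j', j' ≠ j ∧ site r' j' = s := by
  have : s ∈ fresh r' j := Multiset.one_le_count_iff_mem.1 h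
  simp only [fresh, Multiset.insert_eq_cons, Multiset.mem_cons, Multiset.mem_singleton] at this
  rcases this with a | a
  · exact ⟨_, (by decide : ∀ j : Fin 3, j + 1 ≠ j) j, a.symm⟩
  · exact ⟨_, (by decide : ∀ j : Fin 3, j + 2 ≠ j) j, a.symm⟩

theorem fresh_pos {j' : Fin 3} (h : j' ≠ j) (hs : site r' j' = s) : 1 ≤ (fresh r' j).count s := by
  refine Multiset.one_le_count_iff_mem.2 ?_
  simp only [fresh, Multiset.insert_eq_cons, Multiset.mem_cons, Multiset.mem_singleton]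
  rcases (by decide : ∀ j j' : Fin 3, j' ≠ j → j' = j + 1 ∨ j' = j + 2) j j' h with rfl | rfl
  exacts [Or.inl hs.symm, Or.inr hs.symm]

/-- after a move inside a level the new lines lie on that level -/
theorem an_ymove (h : Reply Q k r r' Q' new) (hy : YMove r r' j) (s : Site) (v : ℤ) :
    an Q' s v ≤ an (Q.erase k) s v + if r' 3 = v then (fresh r' j).count s else 0 := by
  have a := an_reply h s v
  have b := one_fresh r' j s
  rw [← hy.1] at a
  split_ifs at a ⊢ with c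
  · split_ifs at b with e
    · have := one_pos (hy.2.1 ▸ e : site r j = s)
      omega
    · omega
  · omega

theorem ad_ymove (h : Reply Q k r r' Q' new) (hy : YMove r r' j) (s : Site) (j' : Fin 3) (v : ℤ) :
    ad Q' s j' v ≤ ad (Q.erase k) s j' v +
      if r' 3 = v ∧ j' ≠ j ∧ site r' j' = s then 1 else 0 := by
  have a := ad_reply h s j' v
  simp only [ol, ← hy.1] at a
  by_cases e : j' = j
  · subst e
    rw [← hy.2.1] at a
    omega
  · split_ifs at a ⊢ <;> first | omega | tauto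

/-- the line along which the rook moves is old -/
theorem ad_old (h : Reply Q k r r' Q' new) (hy : YMove r r' j) :
    1 ≤ ad (Q.erase k) (site r' j) j (r' 3) := by
  rw [hy.1]
  exact ad_pos (mem_erase.2 ⟨h.ne, h.mem⟩) hy.2.1.symm

theorem mem_reply (h : Reply Q k r r' Q' new) {t : Pt} (ht : t ∈ Q') : t = r' ∨ t ∈ Q.erase k :=
  (h.mem_iff.1 ht).imp id fun a => mem_erase.2 ⟨a.2.1, a.1⟩

theorem wmove_col (h : WMove r r') (hc : Col r' s) : Col r s :=
  col_iff.2 fun j => h.2 j ▸ col_iff.1 hc j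

theorem wmove_colT (h : WMove r r') (hc : ColT r' b i) : ColT r b i := by
  rw [colT_iff] at hc ⊢
  simpa only [h.2] using hc

end Pool.Agent.MP_6bef34_co.H92
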