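import Pool.Agent.MP_6bef34_co.H92.Bridge

/-! Local facts on one node and on one reply. -/

namespace Pool.Agent.MP_6bef34_co.H92

open Finset Pool.Agent.MP_6bef34_co.H7
open Pool.Agent.MP_6bef34_co.H88 (Nd Kid Att Line sp tp Of Sg)

variable {Q : Finset Pt} {s b x o : Site} {i : ZMod 6} {v : ℤ} {p c : Nd} {nw : Multiset Site}

theorem add_d2 (b : Site) (i : ZMod 6) : b + d i + d (i + 2) = b + d (i + 1) := by
  rw [add_assoc, d_add]

theorem far_corner (b : Site) (i : ZMod 6) (v : ℤ) :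
    tri (b + d (i + 1)) (i + 5) v = tri (b + d i) (i + 1) v := by
  rcases table i with a | a | a | a | a | a <;> simp [pt_ext, a] <;> omega

theorem far_eq (b : Site) (i : ZMod 6) (v : ℤ) :
    tri (b + d i + d (i + 1)) (i + 3) v = tri (b + d i) (i + 1) v := by
  rcases table i with a | a | a | a | a | a <;> simp [pt_ext, a] <;> omega

/-- the far gate is attacked -/
theorem att_far (h : Att Q (tp (b + d i) (i + 1) v)) :
    (∃ u, u ≠ v ∧ tri (b + d i) (i + 1) u ∈ Q) ∨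
    (tri (b + d i) (i + 1) v ∉ Q ∧ 1 ≤ ad Q (b + d i) (dr (i + 1)) v +
      ad Q (b + d i + d (i + 1)) (dr i) v + ad Q (b + d (i + 1)) (dr (i + 2)) v) ∨
    (tri (b + d i) (i + 1) v ∈ Q ∧ 4 ≤ ad Q (b + d i) (dr (i + 1)) v +
      ad Q (b + d i + d (i + 1)) (dr i) v + ad Q (b + d (i + 1)) (dr (i + 2)) v) := by
  have a := att_tri h
  rwa [show i + 1 + 2 = i + 3 by ring, show i + 1 + 1 = i + 2 by ring, dr_add3, add_d2] at a

theorem ad_far {u : ℤ} (h : tri (b + d i) (i + 1) u ∈ Q) : 1 ≤ ad Q (b + d i) (dr (i + 1)) u ∧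
    1 ≤ ad Q (b + d i + d (i + 1)) (dr i) u ∧ 1 ≤ ad Q (b + d (i + 1)) (dr (i + 2)) u := by
  have a := ad_tri h
  rwa [show i + 1 + 2 = i + 3 by ring, show i + 1 + 1 = i + 2 by ring, dr_add3, add_d2] at a

theorem tri_ne_up (b : Site) (i : ZMod 6) (s : Site) (u v : ℤ) : tri b i u ≠ up s v := by
  rcases table i with a | a | a | a | a | a <;> simp [pt_ext, a] <;> omega

/-- a site with a rook above it and at most three lines -/
theorem col_only {u : ℤ} (h : up x u ∈ Q) (hc : cnt Q x ≤ 3) :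
    (∀ v, v ≠ u → an Q x v = 0) ∧ an Q x u = 3 ∧ ∀ j v, tri x j v ∉ Q := by
  have a := an_up h
  have b := an1 Q x u
  have e : ∀ v, v ≠ u → an Q x v = 0 := fun v hv => by
    have := an2 Q x hv
    omega
  refine ⟨e, by omega, fun j v ht => ?_⟩
  have c := (ad_tri ht).1
  have c' := ad_le_an Q x (dr j) v
  by_cases hv : v = u
  · subst hv
    have f := ad_two ht h (tri_ne_up _ _ _ _ _) (colT_iff.1 (colT_tri x j v)).1
      (col_iff.1 (col_up x v) _) rfl
    have g := an_eq Q x j v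
    have g1 := ad_up h (dr (j + 1))
    have g2 := ad_up h (dr (j + 2))
    rw [tri_3] at f
    omega
  · have := e v hv
    omega

theorem col_data (hs : p.Sound) (h : p.COL x) : ∃ u, up x u ∈ p.Q ∧ u ≠ p.lv - 1 ∧ u ≠ p.lv ∧
    u ≠ p.lv + 1 ∧ (∀ v, v ≠ u → an p.Q x v = 0) ∧ an p.Q x u = 3 ∧ ∀ j v, tri x j v ∉ p.Q := by
  obtain ⟨⟨b1, b2, b3⟩, hc, u, hu⟩ := h
  have a := col_only hu ((sound_le hs x).trans hc)
  have key : ¬ Att p.Q (sp x u) := fun e => by
    rcases att_up e with ⟨u', a1, a2⟩ | a1 | a1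
    · have := an_up a2
      have := a.1 u' a1
      omega
    · exact a1.1 hu
    · omega
  exact ⟨u, hu, fun e => key (e ▸ b1), fun e => key (e ▸ b2), fun e => key (e ▸ b3), a⟩

theorem nc_data (hs : p.Sound) (h : p.NC3 x) : an p.Q x (p.lv - 1) = 1 ∧ an p.Q x p.lv = 1 ∧
    an p.Q x (p.lv + 1) = 1 ∧ p.cnt x = 3 ∧
    ∀ v, v ≠ p.lv - 1 → v ≠ p.lv → v ≠ p.lv + 1 → an p.Q x v = 0 := by
  obtain ⟨⟨b1, b2, b3⟩, hc, hn⟩ := h
  have a1 := att_nc b1 hn
  have a2 := att_nc b2 hn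
  have a3 := att_nc b3 hn
  have a := an3 p.Q x (v1 := p.lv - 1) (v2 := p.lv) (v3 := p.lv + 1) (by omega)
  have e := sound_le hs x
  refine ⟨by omega, by omega, by omega, by omega, fun v c1 c2 c3 => ?_⟩
  have := an4 p.Q x (v1 := p.lv - 1) (v2 := p.lv) (v3 := p.lv + 1) (v4 := v) (by omega)
  omega

theorem blk_three (hs : p.Sound) (h : p.Blk x) : 3 ≤ p.cnt x := by
  have e := sound_le hs x
  by_cases hn : H88.Col p.Q x
  · obtain ⟨u, hu⟩ := hn
    have := an_up hu
    have := an1 p.Q x u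
    omega
  · have a1 := att_nc h.1 hn
    have a2 := att_nc h.2.1 hn
    have a3 := att_nc h.2.2 hn
    have a := an3 p.Q x (v1 := p.lv - 1) (v2 := p.lv) (v3 := p.lv + 1) (by omega)
    omega

theorem gate_att (h : ¬ p.Gate b i) {e : ℤ} (he : Of e) :
    Att p.Q (tp b i (p.lv + e)) ∧ Att p.Q (tp (b + d i) (i + 1) (p.lv + e)) := by
  by_contra hc
  exact h ⟨e, he, not_and_or.1 hc⟩

/-- closed gates on one level behind a corner without lines on that level -/
theorem gate_lev (h1 : Att Q (tp b i v)) (h2 : Att Q (tp (b + d i) (i + 1) v))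
    (hx : an Q (b + d (i + 1)) v = 0) (ht : ∀ j u, tri (b + d (i + 1)) j u ∉ Q) :
    2 ≤ an Q (b + d i) v + min 1 (an Q b v) + an Q (b + d i + d (i + 1)) v := by
  have a1 := an_eq Q (b + d i) i v
  have a2 := an_eq Q (b + d (i + 1)) i v
  have a3 := ad_le_an Q b (dr i) v
  have a4 := ad_le_an Q (b + d i + d (i + 1)) (dr i) v
  have t1 : ∀ u, tri b i u ∉ Q := fun u => tri_corner b i u ▸ ht _ u
  have t2 : ∀ u, tri (b + d i) (i + 1) u ∉ Q := fun u => far_corner b i u ▸ ht _ u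
  rcases att_tri h1 with ⟨u, -, e⟩ | e | e
  · exact absurd e (t1 u)
  · rcases att_far h2 with ⟨u, -, f⟩ | f | f
    · exact absurd f (t2 u)
    · omega
    · exact absurd f.1 (t2 _)
  · exact absurd e.1 (t1 _)

/-- closed gates behind a column need six lines -/
theorem column_six (hs : p.Sound) (h : p.COL (b + d (i + 1))) (hg : ¬ p.Gate b i) :
    6 ≤ p.cnt (b + d i) + p.nB b + p.cnt (b + d i + d (i + 1)) := by
  obtain ⟨u, -, u1, u2, u3, a, -, t⟩ := col_data hs h
  have g1 := gate_att hg (e := -1) (Or.inl rfl)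
  have g2 := gate_att hg (e := 0) (Or.inr (Or.inl rfl))
  have g3 := gate_att hg (e := 1) (Or.inr (Or.inr rfl))
  have k1 := gate_lev g1.1 g1.2 (a _ (by omega)) t
  have k2 := gate_lev g2.1 g2.2 (a _ (by omega)) t
  have k3 := gate_lev g3.1 g3.2 (a _ (by omega)) t
  rw [← sub_eq_add_neg] at k1
  rw [add_zero] at k2
  have c1 := an3 p.Q (b + d i) (v1 := p.lv - 1) (v2 := p.lv) (v3 := p.lv + 1) (by omega)
  have c2 := an3 p.Q (b + d i + d (i + 1)) (v1 := p.lv - 1) (v2 := p.lv) (v3 := p.lv + 1) (by omega)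
  have c3 := sound_le hs (b + d i)
  have c4 := sound_le hs (b + d i + d (i + 1))
  rw [nB_eq]
  omega

/-- a column followed by a corner with three single lines leaves a gate open -/
theorem pair_gate (hs : p.Sound) (ha : p.COL (b + d i)) (hx : p.NC3 (b + d (i + 1)))
    (hb : p.nB b ≤ 2) (ho : p.cnt (b + d i + d (i + 1)) = 0) : p.Gate b i := by
  by_contra hg
  obtain ⟨u, -, u1, u2, u3, a, -, t⟩ := col_data hs ha
  obtain ⟨x1, x2, x3, -, -⟩ := nc_data hs hx
  have key : ∀ e, Of e → an p.Q (b + d (i + 1)) (p.lv + e) = 1 → 1 ≤ an p.Q b (p.lv + e) :=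
    fun e he hx => by
      have g := gate_att hg he
      have a1 := an_eq p.Q (b + d i) i (p.lv + e)
      have a2 := an_eq p.Q (b + d (i + 1)) i (p.lv + e)
      have a3 := ad_le_an p.Q b (dr i) (p.lv + e)
      have a4 := ad_le_an p.Q (b + d i + d (i + 1)) (dr i) (p.lv + e)
      have a5 := an1 p.Q (b + d i + d (i + 1)) (p.lv + e)
      have a6 := sound_le hs (b + d i + d (i + 1))
      have a7 := a (p.lv + e) (by rcases he with rfl | rfl | rfl <;> omega)
      have t1 : ∀ u, tri b i u ∉ p.Q := fun u => tri_left b i u ▸ t _ u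
      rcases att_tri g.1 with ⟨u, -, e⟩ | e | e
      · exact absurd e (t1 u)
      · rcases att_far g.2 with ⟨u, -, f⟩ | f | f
        · exact absurd f (t _ u)
        · omega
        · exact absurd f.1 (t _ _)
      · exact absurd e.1 (t1 _)
  have k1 := key (-1) (Or.inl rfl) (by rwa [← sub_eq_add_neg])
  have k2 := key 0 (Or.inr (Or.inl rfl)) (by rwa [add_zero])
  have k3 := key 1 (Or.inr (Or.inr rfl)) x3
  rw [← sub_eq_add_neg] at k1
  rw [add_zero] at k2
  rw [nB_eq] at hb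
  omega

/-- the reply in numbers -/
theorem kid_num (h : Kid p c nw) : ∃ r r', Reply p.Q c.k r r' c.Q nw ∧
    ((WMove r r' ∧ nw = 0) ∨ ∃ j, YMove r r' j ∧ nw = fresh r' j ∧ nw ≠ 0 ∧
      ∀ s v, an c.Q s v ≤ an p.Q s v + if r' 3 = v then nw.count s else 0) := by
  obtain ⟨r, r', hr⟩ := kid_reply h
  refine ⟨r, r', hr, hr.kind.imp id ?_⟩
  rintro ⟨j, a, rfl⟩
  exact ⟨j, a, rfl, by simp [fresh], fun s v =>
    (an_ymove hr a s v).trans (Nat.add_le_add_right (an_erase_le _ _ _ _) _)⟩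

/-- a site with at most one old line can be blocked by one reply only with a rook above it -/
theorem after_one (hs : p.Sound) (h : Kid p c nw) (ho : p.cnt o ≤ 1) (hb : c.Blk o) :
    nw.count o = 2 ∧ ∃ u, up o u ∈ c.Q ∧ u ≠ c.lv - 1 ∧ u ≠ c.lv ∧ u ≠ c.lv + 1 ∧
      1 ≤ an p.Q o u ∧ ∀ s v, v ≠ u → an c.Q s v ≤ an p.Q s v := by
  have c1 := blk_three (h.sound hs) hb
  have c2 := h.cnt o
  obtain ⟨r, r', hr, ⟨-, rfl⟩ | ⟨j, a, rfl, -, e⟩⟩ := kid_num h
  · simp at c2
    omega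
  have c3 := fresh_le r' j o
  have c4 : Col r' o := by
    by_contra hc
    have := fresh_le_one hc j
    omega
  have c5 : r' ∈ c.Q := hr.mem_iff.2 (Or.inl rfl)
  have c6 : up o (r' 3) ∈ c.Q := c4 ▸ c5
  obtain ⟨u, u0, u1, u2, u3, f, -, -⟩ := col_data (h.sound hs) ⟨hb, by omega, _, c6⟩
  have c7 : r' 3 = u := by
    by_contra hc
    have := f _ hc
    have := an_up c6
    omega
  refine ⟨by omega, u, u0, u1, u2, u3, ?_, fun s v hv => ?_⟩
  · have g := ad_old hr a
    rw [col_iff.1 c4 j, c7] at g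
    exact (g.trans (ad_erase_le _ _ _ _ _)).trans (ad_le_an _ _ _ _)
  · have := e s v
    rwa [if_neg (by omega)] at this

theorem after_zero (hs : p.Sound) (h : Kid p c nw) (ho : p.cnt o = 0) : ¬ c.Blk o := fun hb => by
  obtain ⟨-, u, -, -, -, -, a, -⟩ := after_one hs h (by omega) hb
  have := an1 p.Q o u
  have := sound_le hs o
  omega

/-- the old lines of a site that shows three single lines after a move inside a level -/
theorem old_lines (hs : p.Sound) (h : Kid p c nw) (hy : nw ≠ 0) (hx : c.NC3 x) :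
    nw.count x ≤ 1 ∧ p.cnt x + nw.count x = 3 ∧ 3 ≤ min 1 (an p.Q x (c.lv - 1)) +
      min 1 (an p.Q x c.lv) + min 1 (an p.Q x (c.lv + 1)) + nw.count x := by
  obtain ⟨x1, x2, x3, x4, -⟩ := nc_data (h.sound hs) hx
  have c2 := h.cnt x
  obtain ⟨r, r', hr, ⟨-, rfl⟩ | ⟨j, a, rfl, -, e⟩⟩ := kid_num h
  · exact absurd rfl hy
  have c4 : ¬ Col r' x := fun hc => hx.2.2 ⟨r' 3, by
    have c5 : r' ∈ c.Q := hr.mem_iff.2 (Or.inl rfl)
    exact hc ▸ c5⟩
  have c5 := fresh_le_one c4 j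
  have e1 := e x (c.lv - 1)
  have e2 := e x c.lv
  have e3 := e x (c.lv + 1)
  refine ⟨c5, by omega, ?_⟩
  split_ifs at e1 e2 e3 <;> omega

/-- a site does not show three single lines after both shifted landings -/
theorem n_zero {c' : Nd} {nw' : Multiset Site} (hs : p.Sound) (h : Kid p c nw) (h' : Kid p c' nw')
    (hy : nw ≠ 0) (hy' : nw' ≠ 0) (hl : c.lv = c'.lv + 2) (hx : c.NC3 x) : ¬ c'.NC3 x := fun hx' => by
  have a := old_lines hs h hy hx
  have a' := old_lines hs h' hy' hx'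
  have e := an5 p.Q x (v1 := c'.lv - 1) (v2 := c'.lv) (v3 := c'.lv + 1) (v4 := c.lv)
    (v5 := c.lv + 1) (by omega)
  have f := sound_le hs x
  rw [show c.lv - 1 = c'.lv + 1 by omega] at a
  omega

end Pool.Agent.MP_6bef34_co.H92
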