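import Pool.Agent.MP_6bef34_co.H92.Pure

/-! Landings, excursions and crossings in numbers. -/

namespace Pool.Agent.MP_6bef34_co.H92

open Finset Pool.Agent.MP_6bef34_co.H7
open Pool.Agent.MP_6bef34_co.H88 (Nd Kid Att Line sp tp Of Sg)

variable {Q : Finset Pt} {s b x o z : Site} {i : ZMod 6} {v : ℤ} {p c : Nd} {nw : Multiset Site}

theorem free_up (h : ¬ Att Q (sp s v)) : (∀ u, u ≠ v → up s u ∉ Q) ∧ an (Q.erase (up s v)) s v = 0 := by
  have a := Safe.an_up (not_not.1 (att_iff.not.1 h))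
  refine ⟨a.1, ?_⟩
  rcases a.2 with e | e
  · rw [erase_eq_of_notMem e.1]
    exact e.2
  · exact e.2

theorem not_att_up (hc : ¬ H88.Col Q s) (h : an Q s v = 0) : ¬ Att Q (sp s v) := fun e => by
  have := att_nc e hc
  omega

theorem not_col_of_le (h : cnt Q s ≤ 2) : ¬ H88.Col Q s := fun ⟨u, hu⟩ => by
  have := an_up hu
  have := an1 Q s u
  omega

/-- one line at most: the king can climb -/
theorem h1_of_le (hs : p.Sound) (h : p.cnt b ≤ 1) : p.H1 b := by
  have a := sound_le hs b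
  refine ⟨not_col_of_le (by omega), (nB_le hs b).trans h, ?_⟩
  have e := an4 p.Q b (v1 := p.lv + 1) (v2 := p.lv + 2 * 1) (v3 := p.lv + -1) (v4 := p.lv + 2 * -1)
    (by omega)
  by_cases f : an p.Q b (p.lv + 1) + an p.Q b (p.lv + 2 * 1) = 0
  · exact ⟨1, Or.inl rfl, not_line.2 (by omega), not_line.2 (by omega)⟩
  · exact ⟨-1, Or.inr rfl, not_line.2 (by omega), not_line.2 (by omega)⟩

/-- the level of the king has no line through the landing site unless the reply pays for it -/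
theorem heavy (h : Kid p c nw) (hk : c.k = sp b v) (hf : ¬ Att p.Q (sp b v)) :
    nw = 0 ∨ 1 ≤ nw.count b ∨ c.nB b ≤ 2 := by
  obtain ⟨r, r', hr, ⟨-, rfl⟩ | ⟨j, a, rfl, -, -⟩⟩ := kid_num h
  · exact Or.inl rfl
  have e := an_ymove hr a b v
  rw [hk, sp_eq, (free_up hf).2] at e
  have l : c.lv = v := by rw [Nd.lv, hk]; rfl
  right
  rw [nB_eq, l]
  split_ifs at e <;> omega

/-- the third line of a rook with lines through two adjacent sites -/
theorem apex {r : Pt} {j j1 j2 : Fin 3} (h1 : site r j1 = b + d i) (h2 : site r j2 = b + d (i + 1))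
    (n1 : j1 ≠ j) (n2 : j2 ≠ j) : (site r j = b ∧ ColT r b i) ∨
      (site r j = b + d i + d (i + 1) ∧ ColT r (b + d i) (i + 1)) := by
  rcases table i with a | a | a | a | a | a <;>
    rcases three_cases j with rfl | rfl | rfl <;> rcases three_cases j1 with rfl | rfl | rfl <;>
    rcases three_cases j2 with rfl | rfl | rfl <;>
    simp [ColT, pt_ext, Prod.ext_iff, a] at * <;> omega

theorem two_tri {r : Pt} {j1 j2 : Fin 3} (h1 : site r j1 = b + d i)
    (h2 : site r j2 = b + d (i + 1)) : ColT r b i ∨ ColT r (b + d i) (i + 1) :=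
  (two_sites h1 h2).imp id fun a => by rwa [ColT, far_eq] at a

theorem one_ex {r : Pt} (h : 1 ≤ one r s) : ∃ j, site r j = s := by
  by_contra hc
  push Not at hc
  rw [one_zero hc] at h
  omega

theorem fresh_two {r : Pt} {j : Fin 3} (h : (fresh r j).count s = 2) {t : Site} (ht : t ≠ s) :
    (fresh r j).count t = 0 := by
  simp only [fresh, Multiset.insert_eq_cons, Multiset.count_cons, Multiset.count_singleton] at h ⊢
  split_ifs at h ⊢ <;> simp_all

theorem kid_two (h : Kid p c nw) (h2 : nw.count s = 2) {t : Site} (ht : t ≠ s) : nw.count t = 0 := by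
  obtain ⟨r, r', -, ⟨-, rfl⟩ | ⟨j, -, rfl, -, -⟩⟩ := kid_num h
  · rfl
  · exact fresh_two h2 ht

theorem nbr_ne (b : Site) (i : ZMod 6) : b + d i ≠ b + d (i + 1) := fun h => by
  have := add_d_inj h
  revert this
  generalize i = k
  revert k
  decide

/-- a square above a site without column and without line on that level becomes attacked -/
theorem new_att (h : Kid p c nw) (hc : ¬ H88.Col p.Q x) (h0 : an p.Q x v = 0)
    (ha : Att c.Q (sp x v)) : ∃ r r', Reply p.Q c.k r r' c.Q nw ∧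
      ((WMove r r' ∧ nw = 0 ∧ r' 3 = v ∧ ∃ j, site r j = x) ∨
       ∃ j, YMove r r' j ∧ nw = fresh r' j ∧
        ((Col r' x ∧ nw.count x = 2) ∨ (r' 3 = v ∧ ¬ Col r' x ∧ nw.count x = 1))) := by
  obtain ⟨r, r', hr, hk⟩ := kid_num h
  refine ⟨r, r', hr, ?_⟩
  have hcol : H88.Col c.Q x → Col r' x := fun ⟨u, hu⟩ => by
    rcases mem_reply hr hu with e | e
    · rw [← e]
      exact col_up x u
    · exact absurd ⟨u, mem_of_mem_erase e⟩ hc
  rcases hk with ⟨a, rfl⟩ | ⟨j, a, rfl, -, e⟩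
  · have n : ¬ H88.Col c.Q x := fun f =>
      hc ⟨r 3, (wmove_col a (hcol f) : r = _) ▸ hr.mem⟩
    have e1 := att_nc ha n
    have e2 := an_reply hr x v
    have e3 := an_erase_le p.Q c.k x v
    rw [one_wmove a] at e2
    by_cases l : r' 3 = v
    · rw [if_pos l] at e2
      exact Or.inl ⟨a, rfl, l, one_ex (by omega)⟩
    · rw [if_neg l] at e2
      omega
  · refine Or.inr ⟨j, a, rfl, ?_⟩
    by_cases f : Col r' x
    · exact Or.inl ⟨f, fresh_col f j⟩
    · have e1 := att_nc ha fun g => f (hcol g)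
      have e2 := e x v
      have e3 := fresh_le_one f j
      split_ifs at e2 with l
      · exact Or.inr ⟨l, f, by omega⟩
      · omega

/-- the second test of a site with three single lines -/
theorem retest (hs : p.Sound) (hx : p.NC3 x) (h : Kid p c nw) {σ : ℤ} (hσ : Sg σ)
    (ha : Att c.Q (sp x (p.lv + 2 * σ))) : nw = 0 ∨ 1 ≤ nw.count x := by
  obtain ⟨-, -, -, -, e⟩ := nc_data hs hx
  have e0 := e (p.lv + 2 * σ) (by rcases hσ with rfl | rfl <;> omega)
    (by rcases hσ with rfl | rfl <;> omega) (by rcases hσ with rfl | rfl <;> omega)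
  obtain ⟨r, r', -, a | ⟨j, -, -, a | a⟩⟩ := new_att h hx.2.2 e0 ha
  · exact Or.inl a.2.1
  · exact Or.inr (by omega)
  · exact Or.inr (by omega)

/-- one reply attacks two adjacent sites on a fresh level only from one of the two triangles -/
theorem both_att (h : Kid p c nw) (c1 : ¬ H88.Col p.Q (b + d i))
    (c2 : ¬ H88.Col p.Q (b + d (i + 1))) (z1 : an p.Q (b + d i) v = 0)
    (z2 : an p.Q (b + d (i + 1)) v = 0) (a1 : Att c.Q (sp (b + d i) v))
    (a2 : Att c.Q (sp (b + d (i + 1)) v)) :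
    (∀ s u, u ≠ v → an c.Q s u ≤ an p.Q s u) ∧ (∀ s, H88.Col c.Q s → H88.Col p.Q s) ∧
    ((nw = 0 ∧ ∃ u, u ≠ v ∧ an c.Q (b + d i) u < an p.Q (b + d i) u ∧
      (tri b i u ∈ p.Q ∨ tri (b + d i) (i + 1) u ∈ p.Q)) ∨
    (nw.count (b + d i) = 1 ∧ nw.count (b + d (i + 1)) = 1 ∧
      ((tri b i v ∈ c.Q ∧ 1 ≤ an p.Q b v) ∨ (tri (b + d i) (i + 1) v ∈ c.Q ∧
        1 ≤ an p.Q (b + d i + d (i + 1)) v)))) := by
  obtain ⟨r, r', hr, hk⟩ := new_att h c1 z1 a1
  have m' : r' ∈ c.Q := hr.mem_iff.2 (Or.inl rfl)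
  have hcol : ∀ s, H88.Col c.Q s → Col r' s ∨ H88.Col p.Q s := fun s ⟨u, hu⟩ => by
    rcases mem_reply hr hu with e | e
    · rw [← e]
      exact Or.inl (col_up _ u)
    · exact Or.inr ⟨u, mem_of_mem_erase e⟩
  rcases hk with ⟨a, rfl, l, j, e⟩ | ⟨j, a, rfl, e⟩
  · have hc : ∀ s, H88.Col c.Q s → H88.Col p.Q s := fun s f => (hcol s f).elim
      (fun g => ⟨r 3, (wmove_col a g : r = _) ▸ hr.mem⟩) id
    have e1 := att_nc a2 fun f => c2 (hc _ f)
    have e2 := an_reply hr (b + d (i + 1)) v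
    have e3 := an_erase_le p.Q c.k (b + d (i + 1)) v
    rw [one_wmove a, if_pos l] at e2
    obtain ⟨j', e'⟩ := one_ex (show 1 ≤ one r (b + d (i + 1)) by omega)
    have ne : r 3 ≠ v := fun g => a.1 (l.trans g.symm)
    refine ⟨fun s u hu => ?_, hc, Or.inl ⟨rfl, r 3, ne, ?_, ?_⟩⟩
    · have f2 := an_reply hr s u
      have f3 := an_erase_le p.Q c.k s u
      rw [if_neg (show ¬ r' 3 = u by omega)] at f2
      omega
    · have f2 := an_reply hr (b + d i) (r 3)
      have f3 := an_erase_le p.Q c.k (b + d i) (r 3)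
      have f4 := one_pos e
      rw [if_pos rfl, if_neg a.1] at f2
      omega
    · rcases two_tri e e' with t | t
      · exact Or.inl ((t : r = _) ▸ hr.mem)
      · exact Or.inr ((t : r = _) ▸ hr.mem)
  · have hn : ¬ Col r' (b + d (i + 1)) := fun f => by
      have g := fresh_two (fresh_col f j) (nbr_ne b i)
      omega
    have e1 := att_nc a2 fun g => (hcol _ g).elim hn c2
    have e2 := an_ymove hr a (b + d (i + 1)) v
    have e3 := an_erase_le p.Q c.k (b + d (i + 1)) v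
    have e4 := fresh_le_one hn j
    have e5 : r' 3 = v ∧ (fresh r' j).count (b + d (i + 1)) = 1 := by
      split_ifs at e2 with l
      · exact ⟨l, by omega⟩
      · omega
    rcases e with e | e
    · have := fresh_two e.2 (nbr_ne b i).symm
      omega
    obtain ⟨j1, n1, s1⟩ := fresh_ex e.2.2.ge
    obtain ⟨j2, n2, s2⟩ := fresh_ex e5.2.ge
    have g := ((ad_old hr a).trans (ad_le_an _ _ _ _)).trans (an_erase_le _ _ _ _)
    refine ⟨fun s u hu => ?_, fun s f => (hcol s f).elim (fun t => ?_) id,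
      Or.inr ⟨e.2.2, e5.2, ?_⟩⟩
    · have f2 := an_ymove hr a s u
      have f3 := an_erase_le p.Q c.k s u
      rw [if_neg (show ¬ r' 3 = u by omega)] at f2
      omega
    · exact absurd ((col_iff.1 t j1).symm.trans s1 ▸ t) e.2.1
    · rcases apex s1 s2 n1 n2 with t | t
      · exact Or.inl ⟨e5.1 ▸ (t.2 : r' = _) ▸ m', by rwa [t.1, e5.1] at g⟩
      · exact Or.inr ⟨e5.1 ▸ (t.2 : r' = _) ▸ m', by rwa [t.1, e5.1] at g⟩

/-- two fresh levels of a site are attacked after one reply only from above the site -/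
theorem two_lev (h : Kid p c nw) (hc : ¬ H88.Col p.Q x) {u : ℤ} (huv : u ≠ v)
    (z1 : an (p.Q.erase c.k) x u = 0) (z2 : an (p.Q.erase c.k) x v = 0) (a1 : Att c.Q (sp x u))
    (a2 : Att c.Q (sp x v)) : nw.count x = 2 := by
  obtain ⟨r, r', hr⟩ := kid_reply h
  by_cases f : Col r' x
  · rcases hr.kind with ⟨a, -⟩ | ⟨j, -, rfl⟩
    · exact absurd ⟨r 3, (wmove_col a f : r = _) ▸ hr.mem⟩ hc
    · exact fresh_col f j
  have n : ¬ H88.Col c.Q x := fun ⟨w, hw⟩ => by
    rcases mem_reply hr hw with e | e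
    · exact f (e ▸ col_up x w)
    · exact hc ⟨w, mem_of_mem_erase e⟩
  have e1 := att_nc a1 n
  have e2 := att_nc a2 n
  have e3 := an_reply hr x u
  have e4 := an_reply hr x v
  by_cases l : r' 3 = u
  · rw [if_neg (show ¬ r' 3 = v by omega)] at e4
    omega
  · rw [if_neg l] at e3
    omega

/-- a rook on the near triangle leaves the far one free -/
theorem far_free (ht : tri b i v ∈ Q) (h1 : an Q (b + d i) v ≤ 1) (h2 : an Q (b + d (i + 1)) v ≤ 1)
    (h3 : an Q (b + d i + d (i + 1)) v = 0) (h4 : ∀ u, u ≠ v → tri (b + d i) (i + 1) u ∉ Q) :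
    ¬ Att Q (tp (b + d i) (i + 1) v) := fun h => by
  have a := ad_tri ht
  have a1 := an_eq Q (b + d i) i v
  have a2 := an_eq Q (b + d (i + 1)) i v
  have a4 := ad_le_an Q (b + d i + d (i + 1)) (dr i) v
  rcases att_far h with ⟨u, e, f⟩ | f | f
  · exact h4 u e f
  · omega
  · omega

/-- a rook on the far triangle leaves the near one free -/
theorem near_free (ht : tri (b + d i) (i + 1) v ∈ Q) (h1 : an Q (b + d i) v ≤ 1)
    (h2 : an Q (b + d (i + 1)) v ≤ 1) (h3 : an Q b v = 0) (h4 : ∀ u, u ≠ v → tri b i u ∉ Q) :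
    ¬ Att Q (tp b i v) := fun h => by
  have a := ad_far ht
  have a1 := an_eq Q (b + d i) i v
  have a2 := an_eq Q (b + d (i + 1)) i v
  have a4 := ad_le_an Q b (dr i) v
  rcases att_tri h with ⟨u, e, f⟩ | f | f
  · exact h4 u e f
  · omega
  · omega

theorem no_far (h : cnt Q (b + d i + d (i + 1)) = 0) (u : ℤ) : tri (b + d i) (i + 1) u ∉ Q :=
  fun f => by
    have a := (ad_far f).2.1.trans (ad_le_an _ _ _ _)
    have := an1 Q (b + d i + d (i + 1)) u
    omega

/-- the excursion threatens two corners -/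
theorem x_core (hs : p.Sound) (h1 : p.NC3 (b + d i)) (h2 : p.NC3 (b + d (i + 1)))
    (ho : p.cnt (b + d i + d (i + 1)) = 0) (hg : ¬ p.Gate b i) {σ : ℤ} (hσ : Sg σ)
    (hb : ¬ Line p.Q b (p.lv + 2 * σ)) (h : Kid p c nw) :
    ¬ Att c.Q (sp (b + d i) (p.lv + 2 * σ)) ∨ ¬ Att c.Q (sp (b + d (i + 1)) (p.lv + 2 * σ)) := by
  by_contra hc
  rw [not_or, not_not, not_not] at hc
  obtain ⟨x1, x2, x3, -, x4⟩ := nc_data hs h1
  obtain ⟨y1, y2, y3, -, y4⟩ := nc_data hs h2
  have l : p.lv + 2 * σ ≠ p.lv - 1 ∧ p.lv + 2 * σ ≠ p.lv ∧ p.lv + 2 * σ ≠ p.lv + 1 := by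
    rcases hσ with rfl | rfl <;> omega
  have o0 : cnt p.Q (b + d i + d (i + 1)) = 0 := by
    have := sound_le hs (b + d i + d (i + 1))
    omega
  rcases both_att h h1.2.2 h2.2.2 (x4 _ l.1 l.2.1 l.2.2) (y4 _ l.1 l.2.1 l.2.2) hc.1 hc.2 with
    ⟨-, -, ⟨-, u, -, -, t | t⟩ | ⟨-, -, t | t⟩⟩
  · have a := (ad_tri t).2.1.trans (ad_le_an _ _ _ _)
    have o1 := an1 p.Q (b + d i + d (i + 1)) u
    have hu : Of (u - p.lv) := by
      by_contra e
      simp only [Of, not_or] at e
      have := x4 u (by omega) (by omega) (by omega)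
      omega
    have g := (gate_att hg hu).2
    rw [add_sub_cancel] at g
    refine far_free t ?_ ?_ (by omega) (fun u _ => no_far o0 u) g
    · rcases hu with e | e | e
      · rw [show u = p.lv - 1 by omega, x1]
      · rw [show u = p.lv by omega, x2]
      · rw [show u = p.lv + 1 by omega, x3]
    · rcases hu with e | e | e
      · rw [show u = p.lv - 1 by omega, y1]
      · rw [show u = p.lv by omega, y2]
      · rw [show u = p.lv + 1 by omega, y3]
  · exact no_far o0 u t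
  · have := not_line.1 hb
    omega
  · have := an1 p.Q (b + d i + d (i + 1)) (p.lv + 2 * σ)
    omega

/-- the crossing of a site with three single lines two levels away -/
theorem cross_core {c' : Nd} {nw' : Multiset Site} (hs : p.Sound) (hx : p.NC3 x) (h : Kid p c nw)
    (h' : Kid c c' nw') {σ : ℤ} (hσ : Sg σ) (hk : c'.k = sp x (p.lv + 2 * σ)) :
    nw = 0 ∨ nw' = 0 ∨ 5 ≤ c'.cnt x ∨ (c'.cnt x = 4 ∧ c'.nB x ≤ 2) ∨ (c'.cnt x = 3 ∧ c'.H1 x) := by
  obtain ⟨x1, x2, x3, x0, x4⟩ := nc_data hs hx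
  have k1 := h.cnt x
  have k2 := h'.cnt x
  have l : c'.lv = p.lv + 2 * σ := by rw [Nd.lv, hk]; rfl
  obtain ⟨r, r', hr, ⟨-, rfl⟩ | ⟨j, a, rfl, -, e⟩⟩ := kid_num h
  · exact Or.inl rfl
  obtain ⟨t, t', ht, ⟨-, rfl⟩ | ⟨j', a', rfl, -, e'⟩⟩ := kid_num h'
  · exact Or.inr (Or.inl rfl)
  right
  right
  by_cases f : 5 ≤ c'.cnt x
  · exact Or.inl f
  right
  have g : ∀ v, an c'.Q x v ≤ an p.Q x v + (if r' 3 = v then (fresh r' j).count x else 0) +
      if t' 3 = v then (fresh t' j').count x else 0 := fun v =>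
    (e' x v).trans (Nat.add_le_add_right (e x v) _)
  have z2 : an p.Q x (p.lv + 2 * σ) = 0 := by
    rcases hσ with rfl | rfl <;> exact x4 _ (by omega) (by omega) (by omega)
  have z3 : an p.Q x (p.lv + 2 * σ + σ) = 0 := by
    rcases hσ with rfl | rfl <;> exact x4 _ (by omega) (by omega) (by omega)
  have z4 : an p.Q x (p.lv + 2 * σ + 2 * σ) = 0 := by
    rcases hσ with rfl | rfl <;> exact x4 _ (by omega) (by omega) (by omega)
  have g2 := g (p.lv + 2 * σ)
  have g3 := g (p.lv + 2 * σ + σ)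
  have g4 := g (p.lv + 2 * σ + 2 * σ)
  have nb : c'.nB x ≤ 1 + min 1 (an c'.Q x (p.lv + 2 * σ)) +
      min 1 (an c'.Q x (p.lv + 2 * σ + σ)) := by
    rw [nB_eq, l]
    rcases hσ with rfl | rfl
    · omega
    · rw [show p.lv + 2 * -1 - 1 = p.lv + 2 * -1 + -1 by ring]
      omega
  by_cases f4 : c'.cnt x = 4
  · refine Or.inl ⟨f4, ?_⟩
    have : σ ≠ 0 := by rcases hσ with rfl | rfl <;> omega
    split_ifs at g2 g3 <;> omega
  · have n1 : (fresh r' j).count x = 0 := by omega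
    have n2 : (fresh t' j').count x = 0 := by omega
    simp only [n1, n2, ite_self] at g2 g3 g4
    refine Or.inr ⟨by omega, fun ⟨u, hu⟩ => ?_, by omega, σ, hσ, not_line.2 (by rw [l]; omega),
      not_line.2 (by rw [l]; omega)⟩
    have a1 := an_up hu
    have a2 := g u
    simp only [n1, n2, ite_self] at a2
    by_cases b1 : u = p.lv - 1
    · rw [b1] at a1 a2
      omega
    by_cases b2 : u = p.lv
    · rw [b2] at a1 a2
      omega
    by_cases b3 : u = p.lv + 1
    · rw [b3] at a1 a2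
      omega
    have := x4 u b1 b2 b3
    omega

/-- after the column reply behind the corner the third triangle is open -/
theorem tc_free (hs : p.Sound) (hx : p.COL x) (h : Kid p c nw) (ho : p.cnt (x + d i) ≤ 1)
    (hz : p.cnt (x + d (i + 1)) = 0) (hb : c.Blk (x + d i)) :
    nw.count (x + d i) = 2 ∧ c.cnt (x + d (i + 1)) = 0 ∧
      ∃ e, Of e ∧ ¬ Att c.Q (tp x i (c.lv + e)) := by
  obtain ⟨n2, u, u0, u1, u2, u3, -, m⟩ := after_one hs h ho hb
  obtain ⟨w, -, -, -, -, a, -, -⟩ := col_data hs hx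
  have z0 : c.cnt (x + d (i + 1)) = 0 := by rw [h.cnt, hz, kid_two h n2 (nbr_ne x i).symm]
  have s1 := sound_le (h.sound hs) (x + d i)
  have s2 := sound_le (h.sound hs) (x + d (i + 1))
  have s3 := h.cnt (x + d i)
  have co := col_only u0 (by omega)
  have key : ∀ v, v ≠ u → v ≠ w → ¬ Att c.Q (tp x i v) := fun v v1 v2 g => by
    have a1 := ad_le_an c.Q x (dr i) v
    have a2 := ad_le_an c.Q (x + d i) (dr (i + 2)) v
    have a3 := ad_le_an c.Q (x + d (i + 1)) (dr (i + 1)) v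
    have a4 := an1 c.Q (x + d (i + 1)) v
    have a5 := co.1 v v1
    have a6 := m x v v1
    have a7 := a v v2
    rcases att_tri g with ⟨u', -, f⟩ | f | f
    · exact co.2.2 _ _ (tri_left x i u' ▸ f)
    · omega
    · omega
  refine ⟨n2, z0, ?_⟩
  by_cases e : w = c.lv
  · exact ⟨1, Or.inr (Or.inr rfl), key _ (by omega) (by omega)⟩
  · exact ⟨0, Or.inr (Or.inl rfl), key _ (by omega) (by omega)⟩

end Pool.Agent.MP_6bef34_co.H92
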