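import Pool.Agent.MP_6bef34_co.H92.Pure2

/-! The choice of the level at a landing. -/

namespace Pool.Agent.MP_6bef34_co.H92

open Finset Pool.Agent.MP_6bef34_co.H7
open Pool.Agent.MP_6bef34_co.H88 (Nd Kid Att Line sp tp Of Sg)

variable {Q : Finset Pt} {s b x y o z : Site} {i : ZMod 6} {v w σ : ℤ} {p c cp cm c0 : Nd}
  {nw np nm n0 : Multiset Site}

theorem erase_zero {k : Pt} (h : an Q s v = 0) : an (Q.erase k) s v = 0 := by
  have := an_erase_le Q k s v
  omega

theorem Sg.neg (h : Sg σ) : Sg (-σ) := by rcases h with rfl | rfl <;> simp [Sg]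

/-- the window in terms of a side -/
theorem blk_side (hσ : Sg σ) (h : c.Blk x) :
    Att c.Q (sp x (c.lv - σ)) ∧ Att c.Q (sp x c.lv) ∧ Att c.Q (sp x (c.lv + σ)) := by
  rcases hσ with rfl | rfl
  · exact h
  · exact ⟨by rw [sub_neg_eq_add]; exact h.2.2, h.2.1, by rw [← sub_eq_add_neg]; exact h.1⟩

/-- old lines of a site with three single lines after the reply, in terms of a side -/
theorem old_side (hs : p.Sound) (h : Kid p c nw) (hy : nw ≠ 0) (hx : c.NC3 x) (hσ : Sg σ) :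
    nw.count x ≤ 1 ∧ p.cnt x + nw.count x = 3 ∧ 3 ≤ min 1 (an p.Q x (c.lv - σ)) +
      min 1 (an p.Q x c.lv) + min 1 (an p.Q x (c.lv + σ)) + nw.count x ∧ ¬ H88.Col p.Q x ∧
      ∀ v, v ≠ c.lv - σ → v ≠ c.lv → v ≠ c.lv + σ → an p.Q x v = 0 := by
  obtain ⟨a1, a2, a3⟩ := old_lines hs h hy hx
  have e := sound_le hs x
  have z : ∀ v, v ≠ c.lv - 1 → v ≠ c.lv → v ≠ c.lv + 1 → an p.Q x v = 0 := fun v b1 b2 b3 => by
    have := an4 p.Q x (v1 := c.lv - 1) (v2 := c.lv) (v3 := c.lv + 1) (v4 := v) (by omega)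
    omega
  have n : ¬ H88.Col p.Q x := fun ⟨u, hu⟩ => by
    have f := (col_only hu (by omega)).1
    by_cases b1 : u = c.lv
    · have := f (c.lv - 1) (by omega)
      have := f (c.lv + 1) (by omega)
      omega
    · have := f c.lv (by omega)
      by_cases b2 : u = c.lv - 1
      · have := f (c.lv + 1) (by omega)
        omega
      · have := f (c.lv - 1) (by omega)
        omega
  rcases hσ with rfl | rfl
  · exact ⟨a1, a2, a3, n, z⟩
  · refine ⟨a1, a2, ?_, n, fun v b1 b2 b3 => z v (by omega) b2 (by omega)⟩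
    rw [sub_neg_eq_add, ← sub_eq_add_neg]
    omega

/-- both shifted landings are bad -/
theorem lc4_core (hs : p.Sound) (hσ : Sg σ) (hp : Kid p cp np) (hm : Kid p cm nm) (yp : np ≠ 0)
    (ym : nm ≠ 0) (lp : cp.lv = w + σ) (lm : cm.lv = w - σ) (hxy : y ≠ x) (n1 : cp.NC3 x)
    (b1 : cm.Blk x) (n2 : cm.NC3 y) : nm.count x = 2 ∧ ((¬ cp.Blk y ∧ 3 ≤ cp.cnt y) ∨
      ∀ c0 n0, Kid p c0 n0 → n0 ≠ 0 → c0.lv = w → ¬ c0.NC3 x ∧ ¬ c0.NC3 y) := by
  have σ0 : σ = 1 ∨ σ = -1 := hσ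
  obtain ⟨a1, a2, a3, a4, a5⟩ := old_side hs hp yp n1 hσ
  have b2 := blk_side hσ b1
  have k1 : nm.count x = 2 := two_lev hm a4 (u := cm.lv - σ) (v := cm.lv) (by omega)
    (erase_zero (a5 _ (by omega) (by omega) (by omega)))
    (erase_zero (a5 _ (by omega) (by omega) (by omega))) b2.1 b2.2.1
  have k2 := kid_two hm k1 hxy
  obtain ⟨-, e2, e3, e4, e5⟩ := old_side hs hm ym n2 hσ
  have k3 := hp.cnt y
  refine ⟨k1, ?_⟩
  by_cases b3 : cp.Blk y
  · refine Or.inr fun c0 n0 h0 y0 l0 => ?_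
    have b4 := blk_side hσ b3
    have k4 : np.count y = 2 := two_lev hp e4 (u := cp.lv + σ) (v := cp.lv) (by omega)
      (erase_zero (e5 _ (by omega) (by omega) (by omega)))
      (erase_zero (e5 _ (by omega) (by omega) (by omega))) b4.2.2 b4.2.1
    have k5 := kid_two hp k4 hxy.symm
    refine ⟨fun f => ?_, fun f => ?_⟩
    · obtain ⟨-, g2, g3, -, -⟩ := old_side hs h0 y0 f hσ
      have := a5 (c0.lv - σ) (by omega) (by omega) (by omega)
      omega
    · obtain ⟨-, g2, g3, -, -⟩ := old_side hs h0 y0 f hσ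
      have := e5 (c0.lv + σ) (by omega) (by omega) (by omega)
      omega
  · exact Or.inl ⟨b3, by omega⟩

/-- a move inside a level changes lines on one level only -/
theorem one_lev (h : Kid p c nw) (hy : nw ≠ 0) (hc : ¬ H88.Col c.Q x) (h0 : an p.Q x v = 0)
    (h1 : 1 ≤ an c.Q x v) :
    (∀ s u, u ≠ v → an c.Q s u ≤ an p.Q s u) ∧ (∀ s, an c.Q s v ≤ an p.Q s v + nw.count s) ∧
      ∀ s, H88.Col c.Q s → H88.Col p.Q s := by
  obtain ⟨r, r', hr, ⟨-, rfl⟩ | ⟨j, a, rfl, -, e⟩⟩ := kid_num h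
  · exact absurd rfl hy
  have e1 := e x v
  have l : r' 3 = v ∧ 1 ≤ (fresh r' j).count x := by
    split_ifs at e1 with l
    · exact ⟨l, by omega⟩
    · omega
  refine ⟨fun s u hu => ?_, fun s => ?_, fun s ⟨u, hu⟩ => ?_⟩
  · have := e s u
    rwa [if_neg (by omega)] at this
  · have := e s v
    rwa [if_pos l.1] at this
  · rcases mem_reply hr hu with f | f
    · obtain ⟨j', -, g⟩ := fresh_ex l.2
      have g' : s = x := by rw [← g, ← f]; exact (col_iff.1 (col_up s u) j').symm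
      exact absurd ⟨u, g' ▸ hu⟩ hc
    · exact ⟨u, mem_of_mem_erase f⟩

/-- the two landings on a notch with one old line, both answered by a third single line on `x` -/
structure Dirty (p cp c0 : Nd) (np n0 : Multiset Site) (b x : Site) (w σ : ℤ) : Prop where
  hs : p.Sound
  sg : Sg σ
  kp : Kid p cp np
  k0 : Kid p c0 n0
  yp : np ≠ 0
  y0 : n0 ≠ 0
  lp : cp.lv = w + σ
  l0 : c0.lv = w
  bp : cp.cnt b ≤ 1
  b0 : c0.cnt b ≤ 1
  old : 1 ≤ an p.Q b (w - σ)
  xp : cp.NC3 x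
  x0 : c0.NC3 x

theorem Dirty.b_data (h : Dirty p cp c0 np n0 b x w σ) : np.count b = 0 ∧ n0.count b = 0 ∧
    ∀ v, v ≠ w - σ → an p.Q b v = 0 := by
  have a := h.kp.cnt b
  have a' := h.k0.cnt b
  have e := sound_le h.hs b
  have f := an1 p.Q b (w - σ)
  have g := h.old
  have g1 := h.bp
  have g2 := h.b0
  refine ⟨by omega, by omega, fun v hv => ?_⟩
  have := an2 p.Q b hv
  omega

theorem Dirty.x_data (h : Dirty p cp c0 np n0 b x w σ) : p.cnt x = 2 ∧ ¬ H88.Col p.Q x ∧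
    (∀ v, v ≠ w → v ≠ w + σ → an p.Q x v = 0) ∧
    (∀ s u, u ≠ w + 2 * σ → an cp.Q s u ≤ an p.Q s u) ∧
    (∀ s, an cp.Q s (w + 2 * σ) ≤ an p.Q s (w + 2 * σ) + np.count s) ∧
    (∀ s, H88.Col cp.Q s → H88.Col p.Q s) ∧
    (∀ s u, u ≠ w - σ → an c0.Q s u ≤ an p.Q s u) ∧
    (∀ s, an c0.Q s (w - σ) ≤ an p.Q s (w - σ) + n0.count s) ∧
    (∀ s, H88.Col c0.Q s → H88.Col p.Q s) := by
  have σ0 : σ = 1 ∨ σ = -1 := h.sg
  have lp := h.lp
  have l0 := h.l0
  obtain ⟨a1, a2, a3, a4, a5⟩ := old_side h.hs h.kp h.yp h.xp h.sg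
  obtain ⟨e1, e2, e3, -, e5⟩ := old_side h.hs h.k0 h.y0 h.x0 h.sg
  have z1 := e5 (cp.lv + σ) (by omega) (by omega) (by omega)
  have z2 := a5 (c0.lv - σ) (by omega) (by omega) (by omega)
  have f1 := att_nc (blk_side h.sg h.xp.1).2.2 h.xp.2.2
  have f2 := att_nc (blk_side h.sg h.x0.1).1 h.x0.2.2
  have g1 := one_lev h.kp h.yp h.xp.2.2 z1 f1
  have g2 := one_lev h.k0 h.y0 h.x0.2.2 z2 f2
  rw [show cp.lv + σ = w + 2 * σ by omega] at g1
  rw [l0] at g2
  refine ⟨by omega, a4, fun v b1 b2 => ?_, g1.1, g1.2.1, g1.2.2, g2.1, g2.2.1, g2.2.2⟩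
  by_cases b3 : v = cp.lv + σ
  · rw [b3, z1]
  · exact a5 v (by omega) (by omega) b3

/-- the second corner can be entered: on one landing a side is free or three lines are known -/
theorem Dirty.second (h : Dirty p cp c0 np n0 b x w σ) (hy : ¬ cp.Blk y ∨ ¬ c0.Blk y) :
    ∃ c, (c = cp ∨ c = c0) ∧ ((∃ τ, Sg τ ∧ ¬ Att c.Q (sp y (c.lv + τ))) ∨
      (¬ Att c.Q (sp y c.lv) ∧ 3 ≤ c.cnt y)) := by
  have σ0 : σ = 1 ∨ σ = -1 := h.sg
  have lp := h.lp
  have l0 := h.l0
  obtain ⟨-, -, -, p1, p2, p3, q1, q2, q3⟩ := h.x_data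
  by_contra hc
  push Not at hc
  obtain ⟨a1, a2⟩ := hc cp (Or.inl rfl)
  obtain ⟨e1, e2⟩ := hc c0 (Or.inr rfl)
  have k1 := h.kp.cnt y
  have k2 := h.k0.cnt y
  have s1 := sound_le h.hs y
  have t := an4 p.Q y (v1 := w - σ) (v2 := w) (v3 := w + σ) (v4 := w + 2 * σ) (by omega)
  have a3 := a1 σ h.sg
  have a4 := a1 (-σ) (Sg.neg h.sg)
  have e3 := e1 σ h.sg
  have e4 := e1 (-σ) (Sg.neg h.sg)
  rw [show cp.lv + σ = w + 2 * σ by omega] at a3
  rw [show cp.lv + -σ = w by omega] at a4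
  rw [l0] at e3
  rw [show c0.lv + -σ = w - σ by omega] at e4
  rcases hy with f | f
  · have g : ¬ Att cp.Q (sp y cp.lv) := fun g =>
      f ⟨a1 (-1) (Or.inr rfl), g, a1 1 (Or.inl rfl)⟩
    have g1 := a2 g
    have n : ¬ H88.Col p.Q y := not_col_of_le (by omega)
    have m1 := att_nc a3 fun u => n (p3 _ u)
    have m2 := att_nc a4 fun u => n (p3 _ u)
    have m3 := att_nc e3 fun u => n (q3 _ u)
    have := p1 y w (by omega)
    have := p2 y
    have := q1 y (w + σ) (by omega)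
    omega
  · have g : ¬ Att c0.Q (sp y c0.lv) := fun g =>
      f ⟨e1 (-1) (Or.inr rfl), g, e1 1 (Or.inl rfl)⟩
    have g1 := e2 g
    have n : ¬ H88.Col p.Q y := not_col_of_le (by omega)
    have m1 := att_nc e3 fun u => n (q3 _ u)
    have m2 := att_nc e4 fun u => n (q3 _ u)
    have m3 := att_nc a4 fun u => n (p3 _ u)
    have := q1 y (w + σ) (by omega)
    have := q2 y
    have := p1 y w (by omega)
    omega

theorem no_line {r : Pt} (h1 : site r (dr (i + 2)) = b + d i)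
    (h2 : site r (dr i) = b + d i + d (i + 1)) : False := by
  rcases table i with a | a | a | a | a | a <;> simp [Prod.ext_iff, a] at * <;> omega

theorem count_three (h : Kid p c nw) {s t u : Site} (h1 : s ≠ t) (h2 : s ≠ u) (h3 : t ≠ u) :
    nw.count s + nw.count t + nw.count u ≤ 2 := by
  obtain ⟨r, r', -, ⟨-, rfl⟩ | ⟨j, -, rfl, -, -⟩⟩ := kid_num h
  · simp
  · simp only [fresh, Multiset.insert_eq_cons, Multiset.count_cons, Multiset.count_singleton]
    split_ifs <;> simp_all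

theorem far_ne1 (b : Site) (i : ZMod 6) : b + d i ≠ b + d i + d (i + 1) := (add_d_ne _ _).symm

theorem far_ne2 (b : Site) (i : ZMod 6) : b + d (i + 1) ≠ b + d i + d (i + 1) := by
  rw [add_right_comm]
  exact (add_d_ne _ _).symm

theorem Dirty.second_two (h : Dirty p cp c0 np n0 b (b + d i) w σ) (hb : cp.Blk (b + d (i + 1))) :
    2 ≤ p.cnt (b + d (i + 1)) := by
  by_contra hc
  have a := (after_one h.hs h.kp (by omega) hb).1
  have e := kid_two h.kp a (nbr_ne b i)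
  have f := (old_lines h.hs h.kp h.yp h.xp).2.1
  have g := h.x_data.1
  omega

/-- without a line behind, the upper reply makes no line through the second corner -/
theorem Dirty.no_new (h : Dirty p cp c0 np n0 b (b + d i) w σ)
    (ho : p.cnt (b + d i + d (i + 1)) = 0) : np.count (b + d (i + 1)) = 0 := by
  have σ0 : σ = 1 ∨ σ = -1 := h.sg
  have lp := h.lp
  by_contra hc
  obtain ⟨x1, -, x3, p1, -, -, -, -, -⟩ := h.x_data
  have f := (old_lines h.hs h.kp h.yp h.xp).2.1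
  have f1 := att_nc (blk_side h.sg h.xp.1).2.2 h.xp.2.2
  obtain ⟨r, r', hr, ⟨-, e⟩ | ⟨j, a, e, -, g⟩⟩ := kid_num h.kp
  · exact h.yp e
  have g1 := g (b + d i) (cp.lv + σ)
  have g2 := x3 (cp.lv + σ) (by omega) (by omega)
  have l : r' 3 = cp.lv + σ := by
    by_contra l
    rw [if_neg l] at g1
    omega
  obtain ⟨j1, n1, s1⟩ := fresh_ex (show 1 ≤ (fresh r' j).count (b + d i) by rw [← e]; omega)
  obtain ⟨j2, n2, s2⟩ := fresh_ex (show 1 ≤ (fresh r' j).count (b + d (i + 1)) by rw [← e]; omega)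
  have k := ((ad_old hr a).trans (ad_le_an _ _ _ _)).trans (an_erase_le _ _ _ _)
  rcases apex s1 s2 n1 n2 with t | t
  · rw [t.1, h.b_data.2.2 _ (by omega)] at k
    omega
  · rw [t.1] at k
    have := an1 p.Q (b + d i + d (i + 1)) (r' 3)
    have := sound_le h.hs (b + d i + d (i + 1))
    omega

/-- the second corner is an old column -/
theorem Dirty.col_case (h : Dirty p cp c0 np n0 b (b + d i) w σ) (hb : cp.Blk (b + d (i + 1)))
    (h3 : p.cnt (b + d (i + 1)) ≤ 3) (hc : H88.Col p.Q (b + d (i + 1)))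
    (ho : p.cnt (b + d i + d (i + 1)) = 0) :
    (¬ Att cp.Q (tp b i (w + 2 * σ)) ∨ ¬ Att cp.Q (tp (b + d i) (i + 1) (w + 2 * σ))) ∧
      cp.cnt (b + d i + d (i + 1)) ≤ 1 ∧
      ∀ u, u ≠ w + 2 * σ → an cp.Q (b + d i + d (i + 1)) u = 0 := by
  have σ0 : σ = 1 ∨ σ = -1 := h.sg
  have lp := h.lp
  have a0 := h.no_new ho
  have sp' := h.kp.sound h.hs
  obtain ⟨x1, -, x3, p1, p2, -, -, -, -⟩ := h.x_data
  have f := (old_lines h.hs h.kp h.yp h.xp).2.1
  have k1 := h.kp.cnt (b + d (i + 1))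
  have k2 := h.kp.cnt (b + d i + d (i + 1))
  have k3 := count_three h.kp (nbr_ne b i) (far_ne1 b i) (far_ne2 b i)
  have o0 : ∀ u, an p.Q (b + d i + d (i + 1)) u = 0 := fun u => by
    have := an1 p.Q (b + d i + d (i + 1)) u
    have := sound_le h.hs (b + d i + d (i + 1))
    omega
  have cc : H88.Col cp.Q (b + d (i + 1)) := by
    by_contra n
    obtain ⟨u, hu⟩ := hc
    have e := (col_only hu ((sound_le h.hs _).trans h3)).1
    have b1 := blk_side h.sg hb
    have m1 := att_nc b1.1 n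
    have m2 := att_nc b1.2.1 n
    have m3 := p1 (b + d (i + 1)) (cp.lv - σ) (by omega)
    have m4 := p1 (b + d (i + 1)) cp.lv (by omega)
    by_cases g : u = cp.lv
    · have := e (cp.lv - σ) (by omega)
      omega
    · have := e cp.lv (by omega)
      omega
  obtain ⟨u, -, u1, u2, u3, e, -, t⟩ := col_data sp' ⟨hb, by omega, cc⟩
  refine ⟨?_, by omega, fun u hu => by have := p1 (b + d i + d (i + 1)) u hu; have := o0 u; omega⟩
  by_contra hg
  rw [not_or, not_not, not_not] at hg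
  have e0 := e (w + 2 * σ) (by omega)
  have a1 := an_eq cp.Q (b + d i) i (w + 2 * σ)
  have a2 := an_eq cp.Q (b + d (i + 1)) i (w + 2 * σ)
  have a3 := ad_le_an cp.Q b (dr i) (w + 2 * σ)
  have a4 := p2 b
  have a5 := h.b_data.1
  have a6 := h.b_data.2.2 (w + 2 * σ) (by omega)
  have a7 := p2 (b + d i)
  have a8 := x3 (w + 2 * σ) (by omega) (by omega)
  have t1 : ∀ u, tri b i u ∉ cp.Q := fun u => tri_corner b i u ▸ t _ u
  have t2 : ∀ u, tri (b + d i) (i + 1) u ∉ cp.Q := fun u => far_corner b i u ▸ t _ u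
  have g1 : 1 ≤ ad cp.Q (b + d i) (dr (i + 2)) (w + 2 * σ) := by
    rcases att_tri hg.1 with ⟨u, -, m⟩ | m | m
    · exact absurd m (t1 u)
    · omega
    · exact absurd m.1 (t1 _)
  have g2 : 1 ≤ ad cp.Q (b + d i + d (i + 1)) (dr i) (w + 2 * σ) := by
    rcases att_far hg.2 with ⟨u, -, m⟩ | m | m
    · exact absurd m (t2 u)
    · omega
    · exact absurd m.1 (t2 _)
  obtain ⟨r, r', hr, ⟨-, m⟩ | ⟨j, a, -, -, -⟩⟩ := kid_num h.kp
  · exact h.yp m
  have q1 := ad_ymove hr a (b + d i) (dr (i + 2)) (w + 2 * σ)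
  have q2 := ad_ymove hr a (b + d i + d (i + 1)) (dr i) (w + 2 * σ)
  have q3 := (ad_erase_le p.Q cp.k _ _ _).trans (ad_le_an p.Q (b + d i) (dr (i + 2)) (w + 2 * σ))
  have q4 := (ad_erase_le p.Q cp.k _ _ _).trans
    (ad_le_an p.Q (b + d i + d (i + 1)) (dr i) (w + 2 * σ))
  have q5 := o0 (w + 2 * σ)
  split_ifs at q1 q2 with m1 m2
  · exact no_line m1.2.2 m2.2.2
  all_goals omega

/-- the second corner has three old single lines -/
theorem Dirty.three_case (h : Dirty p cp c0 np n0 b (b + d i) w σ) (hb : cp.Blk (b + d (i + 1)))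
    (hb0 : c0.Blk (b + d (i + 1))) (h3 : p.cnt (b + d (i + 1)) ≤ 3)
    (hc : ¬ H88.Col p.Q (b + d (i + 1))) (ho : p.cnt (b + d i + d (i + 1)) = 0) :
    ¬ Att c0.Q (tp (b + d i) (i + 1) (w - σ)) ∧ c0.cnt (b + d i + d (i + 1)) = 0 := by
  have σ0 : σ = 1 ∨ σ = -1 := h.sg
  have lp := h.lp
  have l0 := h.l0
  have a0 := h.no_new ho
  have s0 := h.k0.sound h.hs
  obtain ⟨x1, x2, x3, p1, p2, p3, q1, q2, q3⟩ := h.x_data
  have n : ¬ H88.Col cp.Q (b + d (i + 1)) := fun g => hc (p3 _ g)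
  have b1 := blk_side h.sg hb
  have m1 := att_nc b1.1 n
  have m2 := att_nc b1.2.1 n
  have m3 := att_nc b1.2.2 n
  rw [show cp.lv - σ = w by omega] at m1
  rw [lp] at m2
  rw [show cp.lv + σ = w + 2 * σ by omega] at m3
  have m4 := p1 (b + d (i + 1)) w (by omega)
  have m5 := p1 (b + d (i + 1)) (w + σ) (by omega)
  have m6 := p2 (b + d (i + 1))
  have m7 := an4 p.Q (b + d (i + 1)) (v1 := w - σ) (v2 := w) (v3 := w + σ) (v4 := w + 2 * σ)
    (by omega)
  have m8 := sound_le h.hs (b + d (i + 1))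
  have o0 := sound_le h.hs (b + d i + d (i + 1))
  have c1 := (blk_side h.sg h.x0.1).1
  have c2 := (blk_side h.sg hb0).1
  rw [l0] at c1 c2
  have z1 := x3 (w - σ) (by omega) (by omega)
  obtain ⟨-, -, ⟨e, -⟩ | ⟨e1, e2, t⟩⟩ := both_att h.k0 x2 hc z1 (by omega) c1 c2
  · exact absurd e h.y0
  have k2 := h.k0.cnt (b + d i + d (i + 1))
  have k3 := count_three h.k0 (nbr_ne b i) (far_ne1 b i) (far_ne2 b i)
  have k4 := sound_le s0 (b + d i + d (i + 1))
  have k5 := an1 c0.Q (b + d i + d (i + 1)) (w - σ)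
  refine ⟨?_, by omega⟩
  rcases t with t | t
  · have := q2 (b + d i)
    have := q2 (b + d (i + 1))
    exact far_free t.1 (by omega) (by omega) (by omega) fun u _ => no_far (by omega) u
  · have := an1 p.Q (b + d i + d (i + 1)) (w - σ)
    omega

/-- the second corner has two old lines -/
theorem Dirty.two_case (h : Dirty p cp c0 np n0 b (b + d i) w σ) (hb : cp.Blk (b + d (i + 1)))
    (hb0 : c0.Blk (b + d (i + 1))) (h2 : p.cnt (b + d (i + 1)) ≤ 2) :
    cp.NC3 (b + d (i + 1)) ∧ c0.NC3 (b + d (i + 1)) ∧ ¬ Att cp.Q (tp b i (w + 2 * σ)) ∧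
      1 ≤ an p.Q (b + d i + d (i + 1)) (w + 2 * σ) ∧ np.count (b + d i + d (i + 1)) = 0 ∧
      (∀ u, tri b i u ∉ cp.Q) ∧ (an p.Q (b + d i + d (i + 1)) (w - σ) = 0 →
        tri b i (w - σ) ∈ c0.Q ∧ ¬ Att c0.Q (tp b i (w - σ))) := by
  have σ0 : σ = 1 ∨ σ = -1 := h.sg
  have lp := h.lp
  have l0 := h.l0
  have s0 := h.k0.sound h.hs
  obtain ⟨x1, x2, x3, p1, p2, p3, q1, q2, q3⟩ := h.x_data
  obtain ⟨y1, y2, y3⟩ := h.b_data
  have m8 := sound_le h.hs (b + d (i + 1))
  have hc : ¬ H88.Col p.Q (b + d (i + 1)) := not_col_of_le (by omega)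
  have n : ¬ H88.Col cp.Q (b + d (i + 1)) := fun g => hc (p3 _ g)
  have b1 := blk_side h.sg hb
  have m1 := att_nc b1.1 n
  have m2 := att_nc b1.2.1 n
  have c2 := b1.2.2
  have c1 := (blk_side h.sg h.xp.1).2.2
  rw [show cp.lv - σ = w by omega] at m1
  rw [lp] at m2
  rw [show cp.lv + σ = w + 2 * σ by omega] at c1 c2
  have m4 := p1 (b + d (i + 1)) w (by omega)
  have m5 := p1 (b + d (i + 1)) (w + σ) (by omega)
  have m7 := an4 p.Q (b + d (i + 1)) (v1 := w - σ) (v2 := w) (v3 := w + σ) (v4 := w + 2 * σ)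
    (by omega)
  have z1 := x3 (w + 2 * σ) (by omega) (by omega)
  have z2 := x3 (w - σ) (by omega) (by omega)
  obtain ⟨-, -, ⟨e, -⟩ | ⟨e1, e2, t⟩⟩ := both_att h.kp x2 hc z1 (by omega) c1 c2
  · exact absurd e h.yp
  have d1 := (blk_side h.sg h.x0.1).1
  have d2 := (blk_side h.sg hb0).1
  rw [l0] at d1 d2
  obtain ⟨-, -, ⟨e, -⟩ | ⟨f1, f2, t'⟩⟩ := both_att h.k0 x2 hc z2 (by omega) d1 d2
  · exact absurd e h.y0
  have k1 := h.kp.cnt (b + d (i + 1))
  have k2 := h.k0.cnt (b + d (i + 1))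
  have k3 := count_three h.kp (nbr_ne b i) (far_ne1 b i) (far_ne2 b i)
  have z3 := y3 (w + 2 * σ) (by omega)
  have z4 := p2 b
  have nt : ∀ u, tri b i u ∉ cp.Q := fun u g => by
    have g1 := (ad_tri g).1.trans (ad_le_an _ _ _ _)
    have g2 := (ad_tri g).2.1.trans (ad_le_an _ _ _ _)
    by_cases l : u = w + 2 * σ
    · rw [l] at g1
      omega
    · have g3 := p1 b u l
      have g4 := p1 (b + d i) u l
      by_cases l' : u = w - σ
      · rw [l'] at g2 g4
        omega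
      · have := y3 u l'
        omega
  rcases t with t | t
  · omega
  refine ⟨⟨hb, by omega, n⟩, ⟨hb0, by omega, fun g => hc (q3 _ g)⟩, ?_, t.2, by omega, nt,
    fun o0 => ?_⟩
  · have := p2 (b + d i)
    have := p2 (b + d (i + 1))
    exact near_free t.1 (by omega) (by omega) (by omega) fun u _ => nt u
  · rcases t' with t' | t'
    · refine ⟨t'.1, fun g => ?_⟩
      have g1 := sound_le s0 b
      have g2 := h.b0
      have g3 := (ad_tri t'.1).1.trans (ad_le_an _ _ _ _)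
      rcases att_tri g with ⟨u, l, m⟩ | m | m
      · have := (ad_tri m).1.trans (ad_le_an _ _ _ _)
        have := an2 c0.Q b l
        omega
      · exact m.1 t'.1
      · have := ad_le_an c0.Q b (dr i) (w - σ)
        have := an1 c0.Q b (w - σ)
        have := ad_le_an c0.Q (b + d i) (dr (i + 2)) (w - σ)
        have := ad_le_an c0.Q (b + d (i + 1)) (dr (i + 1)) (w - σ)
        have := q2 (b + d i)
        have := q2 (b + d (i + 1))
        omega
    · omega

/-- from the near triangle three sites are threatened -/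
theorem Dirty.top {g : Nd} {ng : Multiset Site} (h : Dirty p cp c0 np n0 b (b + d i) w σ)
    (hb : cp.Blk (b + d (i + 1))) (hb0 : c0.Blk (b + d (i + 1))) (h2 : p.cnt (b + d (i + 1)) ≤ 2)
    (h3 : p.cnt (b + d i + d (i + 1)) ≤ 3) (hg : Kid cp g ng) (lg : g.lv = w + 2 * σ)
    (ho : g.Blk (b + d i + d (i + 1))) (a1 : Att g.Q (sp (b + d i) (w + 3 * σ)))
    (a2 : Att g.Q (sp (b + d (i + 1)) (w + 3 * σ))) :
    (ng = 0 ∧ ¬ g.Blk (b + d i)) ∨ an p.Q (b + d i + d (i + 1)) (w - σ) = 0 := by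
  have σ0 : σ = 1 ∨ σ = -1 := h.sg
  have lp := h.lp
  have s1 := h.kp.sound h.hs
  obtain ⟨n2, -, -, o1, o2, nt, -⟩ := h.two_case hb hb0 h2
  obtain ⟨-, -, -, p1, p2, p3, -, -, -⟩ := h.x_data
  obtain ⟨x1, x2, x3, -, x4⟩ := nc_data s1 h.xp
  obtain ⟨-, -, -, -, y4⟩ := nc_data s1 n2
  obtain ⟨e1, e2, e3⟩ := both_att hg h.xp.2.2 n2.2.2 (x4 _ (by omega) (by omega) (by omega))
    (y4 _ (by omega) (by omega) (by omega)) a1 a2
  have so := sound_le h.hs (b + d i + d (i + 1))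
  have key : ∀ u, u ≠ w - σ → u ≠ w + σ → u ≠ w + 2 * σ → 1 ≤ an p.Q (b + d i + d (i + 1)) u →
      an p.Q (b + d i + d (i + 1)) (w - σ) = 0 := fun u u1 u2 u3 hu => by
    clear e3
    have n : ¬ H88.Col g.Q (b + d i + d (i + 1)) := fun f => by
      obtain ⟨v, hv⟩ := p3 _ (e2 _ f)
      have f1 := (col_only hv (by omega)).1
      by_cases l : v = u
      · have := f1 (w + 2 * σ) (by omega)
        omega
      · have := f1 u (by omega)
        omega
    have f2 := att_nc (blk_side h.sg ho).1 n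
    rw [show g.lv - σ = w + σ by omega] at f2
    have f3 := e1 (b + d i + d (i + 1)) (w + σ) (by omega)
    have f4 := p1 (b + d i + d (i + 1)) (w + σ) (by omega)
    have := an4 p.Q (b + d i + d (i + 1)) (v1 := w - σ) (v2 := u) (v3 := w + σ) (v4 := w + 2 * σ)
      (by omega)
    omega
  rcases e3 with ⟨rfl, u, u1, u2, t | t⟩ | ⟨-, -, t | t⟩
  · exact absurd t (nt u)
  · by_cases l : u = w
    · have f1 := (ad_far t).2.1.trans (ad_le_an _ _ _ _)
      have f2 := p1 (b + d i + d (i + 1)) u (by omega)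
      exact Or.inr (key u (by omega) (by omega) (by omega) (by omega))
    · refine Or.inl ⟨rfl, fun f => ?_⟩
      have n : ¬ H88.Col g.Q (b + d i) := fun f' => h.xp.2.2 (e2 _ f')
      have f1 := blk_side h.sg f
      have f2 := att_nc f1.1 n
      have f3 := att_nc f1.2.1 n
      by_cases l1 : u = g.lv - σ
      · rw [← l1] at f2
        rw [show cp.lv = u by omega] at x2
        omega
      by_cases l2 : u = g.lv
      · rw [← l2] at f3
        rcases σ0 with rfl | rfl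
        · rw [show cp.lv + 1 = u by omega] at x3
          omega
        · rw [show cp.lv - 1 = u by omega] at x1
          omega
      have := x4 u (by omega) (by omega) (by omega)
      omega
  · have f1 := p1 b (w + 3 * σ) (by omega)
    have f2 := h.b_data.2.2 (w + 3 * σ) (by omega)
    omega
  · have f2 := p1 (b + d i + d (i + 1)) (w + 3 * σ) (by omega)
    exact Or.inr (key (w + 3 * σ) (by omega) (by omega) (by omega) (by omega))

/-- after the capture on the near triangle only one of the two corners can be closed -/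
theorem capture_core {g : Nd} {ng : Multiset Site} (hs : c.Sound) (hσ : Sg σ)
    (h1 : c.NC3 (b + d i)) (h2 : c.NC3 (b + d (i + 1))) (ht : tri b i (c.lv + σ) ∈ c.Q)
    (hg : Kid c g ng) (hk : g.k = tp b i (c.lv + σ)) (a1 : Att g.Q (sp (b + d i) (c.lv + σ)))
    (a2 : Att g.Q (sp (b + d i) (c.lv + 2 * σ))) :
    ng.count (b + d i) = 2 ∧ ¬ Att g.Q (sp (b + d (i + 1)) (c.lv + 2 * σ)) := by
  have σ0 : σ = 1 ∨ σ = -1 := hσ
  obtain ⟨x1, x2, x3, -, x4⟩ := nc_data hs h1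
  have e1 := an_erase ht (b + d i) (c.lv + σ)
  have e2 := one_pos (colT_iff.1 (colT_tri b i (c.lv + σ))).2.1
  have e3 : an c.Q (b + d i) (c.lv + σ) = 1 := by
    rcases σ0 with rfl | rfl
    exacts [x3, x1]
  rw [tri_3, if_pos rfl] at e1
  have k : ng.count (b + d i) = 2 := two_lev hg h1.2.2 (u := c.lv + σ) (v := c.lv + 2 * σ)
    (by omega) (by rw [hk, tp_eq]; omega)
    (erase_zero (x4 _ (by omega) (by omega) (by omega))) a1 a2
  refine ⟨k, fun f => ?_⟩
  have k2 := kid_two hg k (nbr_ne b i).symm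
  rcases retest hs h2 hg hσ f with f1 | f1
  · rw [f1] at k
    simp at k
  · omega

end Pool.Agent.MP_6bef34_co.H92
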